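import Pool.Agent.N647.TS.Tup
import Pool.Agent.N666.TM.Thin

/-!
# Weighted sums over tuples of consecutive primes of local functions, at the integer parts of generalised polynomials

The engine for well distributed families (`Pool.Agent.N647.TS.tuplesW0`) is combined with the equidistribution of the vectors of the
integer parts of generalised polynomials (`Pool.Agent.N666.TM.fl_well` of helper666).
-/

set_option autoImplicit false

namespace Pool.Agent.N647.TS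

open Finset Filter Topology
open Pool.Agent.TH894.NE (mean box Per mem_box)
open Pool.Agent.TH894.NF (pr)
open Pool.Agent.N666.TM (fl Well fl_well)
open Pool.Agent.Y722.HS (red)
open Pool.Agent.N666.VE (primes)

/-- the natural numbers `⌊P_l (t)⌋` -/
noncomputable def pv {d : ℕ} (F : Fin d → Finset ℝ) (a : Fin d → ℝ → ℝ) (t : ℕ) (l : Fin d) : ℕ :=
  ⌊∑ x ∈ F l, a l x * (t : ℝ) ^ x⌋₊

theorem ev_pos (F : Finset ℝ) (a : ℝ → ℝ) (c : ℝ) (hc : c ∈ F) (hmax : ∀ x ∈ F, x ≤ c) (ha : 0 < a c) :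
    ∀ᶠ t : ℝ in atTop, 0 ≤ ∑ x ∈ F, a x * t ^ x := by
  have h1 : Tendsto (fun t : ℝ => ∑ x ∈ F, a x * t ^ (x - c)) atTop (𝓝 (∑ x ∈ F, if x = c then a c else 0)) := by
    apply tendsto_finset_sum
    intro x hx
    by_cases h : x = c
    · rw [if_pos h, h, sub_self]
      simp only [Real.rpow_zero, mul_one]
      exact tendsto_const_nhds
    · rw [if_neg h]
      have h2 : 0 < c - x := by
        have := hmax x hx
        rcases this.lt_or_eq with h3 | h3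
        · linarith
        · exact absurd h3 h
      have h3 := (tendsto_rpow_neg_atTop h2).const_mul (a x)
      rw [mul_zero, neg_sub] at h3
      exact h3
  rw [Finset.sum_ite_eq' F c, if_pos hc] at h1
  filter_upwards [h1.eventually (lt_mem_nhds ha), eventually_gt_atTop 0] with t ht ht0
  have h4 : ∑ x ∈ F, a x * t ^ x = t ^ c * ∑ x ∈ F, a x * t ^ (x - c) := by
    rw [Finset.mul_sum]
    refine Finset.sum_congr rfl fun x _ => ?_
    rw [Real.rpow_sub ht0]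
    have : t ^ c ≠ 0 := (Real.rpow_pos_of_pos ht0 c).ne'
    field_simp
  rw [h4]
  exact mul_nonneg (Real.rpow_nonneg ht0.le c) ht.le

theorem wellN_of_well {d : ℕ} {s : Finset ℕ} {x : ℕ → Fin d → ℤ} {m : ℕ → Fin d → ℕ} {H : ℕ} (hw : Well s x H)
    (hx : ∀ n ∈ s, ∀ i, x n i = (m n i : ℤ)) : WellN s m H := by
  refine ⟨hw.pos, fun q hq1 hq r hr => ?_⟩
  have h := hw.dist q hq1 hq (fun i => ((r i : ℕ) : ZMod q))
  rw [Fintype.card_fin] at h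
  have he : (s.filter fun n => (fun i => m n i % q) = r) = s.filter fun n => red q (x n) = fun i => ((r i : ℕ) : ZMod q) := by
    apply Finset.filter_congr
    intro n hn
    rw [mem_box] at hr
    constructor
    · intro h1
      funext i
      show ((x n i : ℤ) : ZMod q) = _
      rw [hx n hn i, Int.cast_natCast, ZMod.natCast_eq_natCast_iff']
      rw [← congrFun h1 i, Nat.mod_mod]
    · intro h1
      funext i
      have h2 : ((x n i : ℤ) : ZMod q) = ((r i : ℕ) : ZMod q) := congrFun h1 i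
      rw [hx n hn i, Int.cast_natCast, ZMod.natCast_eq_natCast_iff', Nat.mod_eq_of_lt (hr i)] at h2
      exact h2
  rw [he]
  exact h

/-- the hypotheses for the generalised polynomials -/
def Adm (F : Finset ℝ) (a : ℝ → ℝ) (c : ℝ) : Prop := c ∈ F ∧ (∀ x ∈ F, x ≤ c) ∧ 0 < c ∧ (∀ m : ℕ, c ≠ m) ∧ 0 < a c

theorem pv_pos {d : ℕ} {F : Fin d → Finset ℝ} {a : Fin d → ℝ → ℝ} {c : Fin d → ℝ} (h : ∀ i, Adm (F i) (a i) (c i)) :
    ∃ N₀ : ℕ, ∀ n : ℕ, N₀ ≤ n → ∀ i, fl F a n i = (pv F a n i : ℤ) := by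
  have h1 : ∀ i, ∀ᶠ t : ℕ in atTop, 0 ≤ ∑ x ∈ F i, a i x * (t : ℝ) ^ x := fun i =>
    tendsto_natCast_atTop_atTop.eventually (ev_pos (F i) (a i) (c i) (h i).1 (h i).2.1 (h i).2.2.2.2)
  obtain ⟨N₀, hN₀⟩ := eventually_atTop.1 (eventually_all.2 h1)
  refine ⟨N₀, fun n hn i => ?_⟩
  unfold fl pv
  exact (Int.natCast_floor_eq_floor (hN₀ n hn i)).symm

theorem wellN_thin {d : ℕ} (hd : 1 ≤ d) {F : Fin d → Finset ℝ} {a : Fin d → ℝ → ℝ} {c : Fin d → ℝ}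
    (h : ∀ i, Adm (F i) (a i) (c i)) (hc : Function.Injective c) :
    ∃ κ : ℝ, 0 < κ ∧ ∃ N₀ : ℕ, ∀ N : ℕ, N₀ ≤ N → ∀ H : ℕ, (H : ℝ) ≤ (N : ℝ) ^ κ →
      WellN (Ioc N (2 * N)) (pv F a) H ∧ WellN (primes N) (pv F a) H := by
  haveI : Nonempty (Fin d) := ⟨⟨0, hd⟩⟩
  obtain ⟨⟨κ₁, hκ₁, N₁, h₁⟩, κ₂, hκ₂, N₂, h₂⟩ := fl_well (F := F) (a := a) (c := c) h hc
  obtain ⟨N₃, h₃⟩ := pv_pos h
  refine ⟨min κ₁ κ₂, lt_min hκ₁ hκ₂, N₁ + N₂ + N₃ + 1, fun N hN H hH => ⟨?_, ?_⟩⟩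
  · have hN1 : (1 : ℝ) ≤ N := by exact_mod_cast (by omega : 1 ≤ N)
    refine wellN_of_well (h₁ N (by omega) H (hH.trans (Real.rpow_le_rpow_of_exponent_le hN1 (min_le_left _ _)))) ?_
    intro n hn i
    rw [mem_Ioc] at hn
    exact h₃ n (by omega) i
  · have hN1 : (1 : ℝ) ≤ N := by exact_mod_cast (by omega : 1 ≤ N)
    refine wellN_of_well (h₂ N (by omega) H (hH.trans (Real.rpow_le_rpow_of_exponent_le hN1 (min_le_right _ _)))) ?_
    intro n hn i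
    have hn2 : N < n := by
      unfold primes at hn
      rw [mem_filter, mem_Ioc] at hn
      exact hn.1.1
    exact h₃ n (by omega) i

open Classical in
/-- **The analogue of `Pool.Agent.Y57.FD.tuples0` for the integer parts of generalised polynomials**, at the integers and at the
primes of `(N, 2 N]`. -/
theorem thin0 (d s : ℕ) (hd : 1 ≤ d) (hs : 1 ≤ s) {F : Fin d → Finset ℝ} {a : Fin d → ℝ → ℝ} {c : Fin d → ℝ}
    (h : ∀ i, Adm (F i) (a i) (c i)) (hc : Function.Injective c) (δ : ℝ) (hδ : 0 < δ) (A A₂ : ℕ) (B C₀ : ℝ)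
    (hB : 1 ≤ B) (hC₀ : 0 ≤ C₀) : ∃ κ₀ : ℝ, 0 < κ₀ ∧ ∃ y₀ : ℕ, ∀ y N : ℕ, y₀ ≤ y →
    ∀ (κ : Type) (Λ : ℕ → Finset κ), (∀ n, 2 ≤ n → (Λ n).card ≤ n ^ A₂) →
    ∀ w : κ → ℕ → ℝ, (∀ n, ∀ l ∈ Λ n, ∀ k, |w l k| ≤ 1) →
    ∀ H : κ → Fin s → ℕ → (Fin d → ℕ) → ℝ, (∀ l i p, p.Prime → ∀ m, H l i p m = H l i p (fun j => m j % p)) →
    (∀ l i p, p.Prime → ∀ m, |H l i p m| ≤ B) →
    (∀ n, ∀ l ∈ Λ n, ∃ i : Fin s, ∀ p, p.Prime → |mean d p (H l i p)| ≤ C₀ / Real.sqrt p) →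
    ∀ E : (Fin d → ℕ) → Prop,
    (∀ m : Fin d → ℕ, (∀ n : ℕ, 2 ≤ n → y ≤ n → (n : ℝ) ≤ (N : ℝ) ^ κ₀ → ∀ l ∈ Λ n,
      |∑ k ∈ range n, w l k * ∏ i : Fin s, H l i (pr (k + i)) m| ≤
        Real.sqrt (max 1 (∑ k ∈ range n, w l k ^ 2)) * (n : ℝ) ^ δ) → E m) →
    (((Ioc N (2 * N)).filter fun t => ¬ E (pv F a t)).card : ℝ) ≤ 1 / (y : ℝ) ^ A * N ∧
    (((primes N).filter fun t => ¬ E (pv F a t)).card : ℝ) ≤ 1 / (y : ℝ) ^ A * (primes N).card := by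
  obtain ⟨M, y₁, hM⟩ := tuplesW0 d s hs δ hδ A A₂ B C₀ hB hC₀
  obtain ⟨κ₁, hκ₁, N₁, h₁⟩ := wellN_thin hd h hc
  obtain ⟨κ₀, hκ₀⟩ : ∃ κ₀ : ℝ, κ₀ = κ₁ / (M + 1) := ⟨_, rfl⟩
  have hκ0 : 0 < κ₀ := by rw [hκ₀]; positivity
  obtain ⟨y₂, hy₂⟩ := exists_nat_gt ((N₁ : ℝ) ^ κ₀)
  refine ⟨κ₀, hκ0, y₁ + y₂ + 1, fun y N hy κ Λ hΛ w hw H hper hHB hmean E hE => ?_⟩
  by_cases hN : N₁ ≤ N
  · -- the well distributed range
    obtain ⟨J, hJ⟩ : ∃ J : ℕ, J = ⌊(N : ℝ) ^ κ₁⌋₊ := ⟨_, rfl⟩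
    have hJ1 : (J : ℝ) ≤ (N : ℝ) ^ κ₁ := by
      rw [hJ]
      exact Nat.floor_le (Real.rpow_nonneg (Nat.cast_nonneg _) _)
    have hJ2 : (N : ℝ) ^ κ₁ < J + 1 := by
      rw [hJ]
      exact Nat.lt_floor_add_one _
    obtain ⟨hw1, hw2⟩ := h₁ N hN J hJ1
    have hE' : ∀ m : Fin d → ℕ, (∀ n : ℕ, 2 ≤ n → y ≤ n → n ^ M ≤ 2 * J + 1 → ∀ l ∈ Λ n,
      |∑ k ∈ range n, w l k * ∏ i : Fin s, H l i (pr (k + i)) m| ≤
        Real.sqrt (max 1 (∑ k ∈ range n, w l k ^ 2)) * (n : ℝ) ^ δ) → E m := by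
      intro m hm
      refine hE m fun n hn2 hyn hnN l hl => hm n hn2 hyn ?_ l hl
      have hn1 : (1 : ℝ) ≤ n := by exact_mod_cast (by omega : 1 ≤ n)
      have hN0 : (0 : ℝ) ≤ N := Nat.cast_nonneg _
      have h3 : (n : ℝ) ^ (M + 1) ≤ (N : ℝ) ^ κ₁ := by
        calc (n : ℝ) ^ (M + 1) ≤ ((N : ℝ) ^ κ₀) ^ (M + 1) := pow_le_pow_left₀ (by positivity) hnN _
          _ = (N : ℝ) ^ κ₁ := by
              rw [← Real.rpow_natCast, ← Real.rpow_mul hN0, hκ₀]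
              congr 1
              push_cast
              field_simp
      have h4 : (n : ℝ) ^ M ≤ (n : ℝ) ^ (M + 1) := pow_le_pow_right₀ hn1 (by omega)
      have h5 : (n : ℝ) ^ M ≤ ((2 * J + 1 : ℕ) : ℝ) := by
        push_cast
        have : (0 : ℝ) ≤ J := Nat.cast_nonneg _
        linarith
      exact_mod_cast h5
    constructor
    · have := hM (Ioc N (2 * N)) (pv F a) J y hw1 (by omega) κ Λ hΛ w hw H hper hHB hmean E hE'
      rw [Nat.card_Ioc, show 2 * N - N = N by omega] at this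
      exact this
    · exact hM (primes N) (pv F a) J y hw2 (by omega) κ Λ hΛ w hw H hper hHB hmean E hE'
  · -- small `N`: nothing to prove
    have hall : ∀ m, E m := by
      intro m
      refine hE m fun n _ hyn hnN l _ => ?_
      exfalso
      have h2 : (N : ℝ) ^ κ₀ ≤ (N₁ : ℝ) ^ κ₀ := by
        apply Real.rpow_le_rpow (Nat.cast_nonneg _) _ hκ0.le
        exact_mod_cast (by omega : N ≤ N₁)
      have h3 : (y₂ : ℝ) ≤ n := by exact_mod_cast (by omega : y₂ ≤ n)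
      linarith
    constructor
    · rw [Finset.filter_false_of_mem (fun t _ => not_not.2 (hall _)), card_empty, Nat.cast_zero]
      positivity
    · rw [Finset.filter_false_of_mem (fun t _ => not_not.2 (hall _)), card_empty, Nat.cast_zero]
      positivity

end Pool.Agent.N647.TS
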