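import Pool.Agent.TH894.NE2

/-!
# Local functions modulo many coprime moduli at the members of a well distributed family of integer vectors

The analogue of `Pool.Agent.TH894.NE.law3` for families of integer vectors which are well distributed in the residue classes to all
moduli up to `2 H + 1` (for example the integer parts of generalised polynomials, see `Pool.Agent.N666.TM.Thin`).
-/

set_option autoImplicit false

namespace Pool.Agent.N647.TS

open Finset Filter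
open Pool.Agent.TH894.NE (mean box Per mean_prod mean_mono mean_const mean_mul mean_add card_box mem_box momentd)

/-- The vectors `m n`, `n ∈ s`, are well distributed in the residue classes modulo the integers up to `2 H + 1`. -/
structure WellN {d : ℕ} (s : Finset ℕ) (m : ℕ → Fin d → ℕ) (H : ℕ) : Prop where
  pos : 0 < s.card
  dist : ∀ q : ℕ, 1 ≤ q → q ≤ 2 * H + 1 → ∀ r ∈ box d q,
    |((#{n ∈ s | (fun i => m n i % q) = r} : ℕ) : ℝ) / s.card - 1 / (q : ℝ) ^ d| ≤ 1 / (2 * H + 1) * (1 / (q : ℝ) ^ d)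

variable {d : ℕ} {s : Finset ℕ} {m : ℕ → Fin d → ℕ} {H : ℕ}

theorem avg_near (hw : WellN s m H) (q : ℕ) (hq1 : 1 ≤ q) (hq : q ≤ 2 * H + 1) (G : (Fin d → ℕ) → ℝ) (hG : Per q G)
    (hG1 : ∀ v, |G v| ≤ 1) : |(∑ n ∈ s, G (m n)) / s.card - mean d q G| ≤ 1 / (2 * H + 1) := by
  classical
  have hs : (0 : ℝ) < s.card := by exact_mod_cast hw.pos
  have hq0 : (0 : ℝ) < q := by exact_mod_cast hq1
  have e1 : (∑ n ∈ s, G (m n)) / s.card =
      ∑ r ∈ box d q, ((#{n ∈ s | (fun i => m n i % q) = r} : ℕ) : ℝ) / s.card * G r := by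
    have hmaps : ∀ n ∈ s, (fun i => m n i % q) ∈ box d q := by
      intro n _
      rw [mem_box]
      intro i
      exact Nat.mod_lt _ hq1
    rw [← Finset.sum_fiberwise_of_maps_to hmaps, Finset.sum_div]
    refine Finset.sum_congr rfl fun r _ => ?_
    have h1 : ∀ n ∈ s.filter (fun n => (fun i => m n i % q) = r), G (m n) = G r := by
      intro n hn
      rw [mem_filter] at hn
      rw [hG (m n), hn.2]
    rw [Finset.sum_congr rfl h1, Finset.sum_const, nsmul_eq_mul]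
    ring
  have e2 : mean d q G = ∑ r ∈ box d q, 1 / (q : ℝ) ^ d * G r := by
    unfold mean
    rw [← Finset.mul_sum]
  rw [e1, e2, ← Finset.sum_sub_distrib]
  have h3 : ∀ r ∈ box d q, |((#{n ∈ s | (fun i => m n i % q) = r} : ℕ) : ℝ) / s.card * G r - 1 / (q : ℝ) ^ d * G r| ≤
      1 / (2 * H + 1) * (1 / (q : ℝ) ^ d) := by
    intro r hr
    rw [← sub_mul, abs_mul]
    calc _ ≤ |((#{n ∈ s | (fun i => m n i % q) = r} : ℕ) : ℝ) / s.card - 1 / (q : ℝ) ^ d| * 1 :=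
          mul_le_mul_of_nonneg_left (hG1 r) (abs_nonneg _)
      _ ≤ _ := by rw [mul_one]; exact hw.dist q hq1 hq r hr
  refine (Finset.abs_sum_le_sum_abs _ _).trans ((Finset.sum_le_sum h3).trans (le_of_eq ?_))
  rw [Finset.sum_const, card_box, nsmul_eq_mul]
  push_cast
  field_simp

/-- the power of a sum of local functions -/
theorem avg_pow (hw : WellN s m H) {ι : Type} [DecidableEq ι] (I : Finset ι) (q : ι → ℕ) (x k : ℕ)
    (hq : ∀ a ∈ I, 1 ≤ q a ∧ q a ≤ x) (hx1 : 1 ≤ x) (hx : x ^ k ≤ 2 * H + 1)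
    (hcop : ∀ a ∈ I, ∀ a' ∈ I, a ≠ a' → Nat.Coprime (q a) (q a')) (F : ι → (Fin d → ℕ) → ℝ)
    (hF : ∀ a ∈ I, Per (q a) (F a)) (hF1 : ∀ a ∈ I, ∀ n, |F a n| ≤ 1) :
    |(∑ n ∈ s, (∑ a ∈ I, F a (m n)) ^ k) / s.card - mean d (∏ a ∈ I, q a) (fun v => (∑ a ∈ I, F a v) ^ k)| ≤
      (I.card : ℝ) ^ k / (2 * H + 1) := by
  classical
  have hexp : ∀ v : Fin d → ℕ, (∑ a ∈ I, F a v) ^ k = ∑ p ∈ Fintype.piFinset (fun _ : Fin k => I), ∏ i, F (p i) v := by
    intro v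
    rw [← Finset.prod_univ_sum (t := fun _ : Fin k => I) (f := fun _ a => F a v), Finset.prod_const, Finset.card_univ,
      Fintype.card_fin]
  have hmean : ∀ p ∈ Fintype.piFinset (fun _ : Fin k => I),
      |(∑ n ∈ s, ∏ i, F (p i) (m n)) / s.card - mean d (∏ a ∈ I, q a) (fun v => ∏ i, F (p i) v)| ≤ 1 / (2 * H + 1) := by
    intro p hp
    rw [Fintype.mem_piFinset] at hp
    set J := (univ : Finset (Fin k)).image p with hJ
    have hJI : J ⊆ I := by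
      intro a ha
      rw [hJ, mem_image] at ha
      obtain ⟨i, _, rfl⟩ := ha
      exact hp i
    set e : ι → ℕ := fun a => #{i ∈ (univ : Finset (Fin k)) | p i = a} with he
    have hprod : ∀ v : Fin d → ℕ, ∏ i, F (p i) v = ∏ a ∈ J, F a v ^ e a := by
      intro v
      rw [hJ, he]
      exact Finset.prod_comp (fun a => F a v) p
    have he0 : ∀ a, a ∉ J → e a = 0 := by
      intro a ha
      rw [he]
      rw [Finset.card_eq_zero, Finset.filter_eq_empty_iff]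
      intro i _ hi
      exact ha (by rw [hJ, mem_image]; exact ⟨i, mem_univ i, hi⟩)
    have hprodI : ∀ v : Fin d → ℕ, ∏ i, F (p i) v = ∏ a ∈ I, F a v ^ e a := by
      intro v
      rw [hprod]
      apply Finset.prod_subset hJI
      intro a _ ha
      rw [he0 a ha, pow_zero]
    have hPer : ∀ a ∈ I, Per (q a) (fun v => F a v ^ e a) := by
      intro a ha v
      show F a v ^ e a = F a (fun i => v i % q a) ^ e a
      rw [← hF a ha v]
    have m1 : mean d (∏ a ∈ I, q a) (fun v => ∏ i, F (p i) v) = ∏ a ∈ I, mean d (q a) (fun v => F a v ^ e a) := by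
      rw [← mean_prod I q (fun a ha => (hq a ha).1) hcop (fun a v => F a v ^ e a) hPer]
      congr 1
      funext v
      exact hprodI v
    have m2 : mean d (∏ a ∈ J, q a) (fun v => ∏ i, F (p i) v) = ∏ a ∈ J, mean d (q a) (fun v => F a v ^ e a) := by
      rw [← mean_prod J q (fun a ha => (hq a (hJI ha)).1) (fun a ha a' ha' => hcop a (hJI ha) a' (hJI ha'))
        (fun a v => F a v ^ e a) (fun a ha => hPer a (hJI ha))]
      congr 1
      funext v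
      exact hprod v
    have m3 : ∏ a ∈ J, mean d (q a) (fun v => F a v ^ e a) = ∏ a ∈ I, mean d (q a) (fun v => F a v ^ e a) := by
      apply Finset.prod_subset hJI
      intro a ha haJ
      rw [he0 a haJ]
      simp only [pow_zero]
      exact mean_const d (q a) (hq a ha).1 1
    rw [m1, ← m3, ← m2]
    have hqJ1 : 1 ≤ ∏ a ∈ J, q a :=
      Nat.one_le_iff_ne_zero.2 (prod_ne_zero_iff.2 fun a ha => by have := (hq a (hJI ha)).1; omega)
    have hqJ : ∏ a ∈ J, q a ≤ 2 * H + 1 := by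
      refine le_trans ?_ hx
      calc ∏ a ∈ J, q a ≤ ∏ _a ∈ J, x := prod_le_prod' fun a ha => (hq a (hJI ha)).2
        _ = x ^ J.card := by rw [prod_const]
        _ ≤ x ^ k := by
            apply Nat.pow_le_pow_right hx1
            rw [hJ]
            refine card_image_le.trans ?_
            rw [card_univ, Fintype.card_fin]
    refine avg_near hw _ hqJ1 hqJ (fun v => ∏ i, F (p i) v) ?_ ?_
    · intro v
      show ∏ i, F (p i) v = ∏ i, F (p i) (fun l => v l % ∏ a ∈ J, q a)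
      refine prod_congr rfl fun i _ => ?_
      have hmem : p i ∈ J := by rw [hJ]; exact mem_image_of_mem p (mem_univ i)
      exact ((hF (p i) (hp i)).of_dvd (dvd_prod_of_mem q hmem)) v
    · intro v
      rw [abs_prod]
      exact prod_le_one (fun i _ => abs_nonneg _) (fun i _ => hF1 _ (hp i) v)
  have e1 : (∑ n ∈ s, (∑ a ∈ I, F a (m n)) ^ k) / s.card =
      ∑ p ∈ Fintype.piFinset (fun _ : Fin k => I), (∑ n ∈ s, ∏ i, F (p i) (m n)) / s.card := by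
    rw [← Finset.sum_div]
    congr 1
    rw [Finset.sum_comm]
    exact Finset.sum_congr rfl fun n _ => hexp (m n)
  have e2 : mean d (∏ a ∈ I, q a) (fun v => (∑ a ∈ I, F a v) ^ k) =
      ∑ p ∈ Fintype.piFinset (fun _ : Fin k => I), mean d (∏ a ∈ I, q a) (fun v => ∏ i, F (p i) v) := by
    unfold mean
    rw [← Finset.mul_sum, Finset.sum_comm]
    congr 1
    exact Finset.sum_congr rfl fun v _ => hexp v
  rw [e1, e2, ← Finset.sum_sub_distrib]
  refine (Finset.abs_sum_le_sum_abs _ _).trans ((Finset.sum_le_sum hmean).trans (le_of_eq ?_))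
  rw [Finset.sum_const, Fintype.card_piFinset_const, nsmul_eq_mul]
  push_cast
  ring

/-- **Few members of the family with a large sum.** -/
theorem engineW (d : ℕ) (δ A : ℝ) (hδ : 0 < δ) : ∃ M : ℕ, ∃ x₀ : ℕ,
    ∀ (s : Finset ℕ) (m : ℕ → Fin d → ℕ) (H x : ℕ), WellN s m H → x₀ ≤ x → x ^ M ≤ 2 * H + 1 →
    ∀ {ι : Type} (I : Finset ι) (q : ι → ℕ), I.card ≤ x → (∀ a ∈ I, 1 ≤ q a ∧ q a ≤ x) →
    (∀ a ∈ I, ∀ a' ∈ I, a ≠ a' → Nat.Coprime (q a) (q a')) → ∀ F : ι → (Fin d → ℕ) → ℝ,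
    (∀ a ∈ I, Per (q a) (F a) ∧ (∀ n, |F a n| ≤ 1) ∧ mean d (q a) (F a) = 0) →
    ∀ V : ℝ, 1 ≤ V → ∑ a ∈ I, mean d (q a) (fun n => F a n ^ 2) ≤ V →
    ∀ Ex ⊆ s, (∀ n ∈ Ex, Real.sqrt V * (x : ℝ) ^ δ < |∑ a ∈ I, F a (m n)|) →
    (Ex.card : ℝ) ≤ (x : ℝ) ^ (-A) * s.card := by
  classical
  obtain ⟨j, hj⟩ : ∃ j, j = ⌈(|A| + 1) / δ⌉₊ + 1 := ⟨_, rfl⟩
  have hj1 : 1 ≤ j := by omega
  have hjr : (1 : ℝ) ≤ j := by exact_mod_cast hj1
  have hjA : |A| + 1 ≤ δ * j := by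
    have h1 : (|A| + 1) / δ ≤ j := by
      rw [hj]
      push_cast
      have := Nat.le_ceil ((|A| + 1) / δ)
      linarith
    rw [div_le_iff₀ hδ] at h1
    linarith
  obtain ⟨x₃, hx₃⟩ := exists_nat_ge (12 * ((2 * j).factorial : ℝ))
  refine ⟨2 * j, x₃ + 2, fun s m H x hw hx hxH ι I q hIx hq hcop F hF V hV1 hV Ex hEx hExb => ?_⟩
  have hx2r : (2 : ℝ) ≤ x := by exact_mod_cast (by omega : 2 ≤ x)
  have hx0 : (0 : ℝ) < x := by linarith
  have hx1' : (1 : ℝ) ≤ x := by linarith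
  have hs : (0 : ℝ) < s.card := by exact_mod_cast hw.pos
  have hmom := momentd I q (fun a ha => (hq a ha).1) hcop F (fun a ha => (hF a ha).1) (fun a ha => (hF a ha).2.1)
    (fun a ha => (hF a ha).2.2) V hV1 hV j
  have havg := (abs_le.1 (avg_pow hw I q x (2 * j) hq (by omega) hxH hcop F (fun a ha => (hF a ha).1)
    (fun a ha => (hF a ha).2.1))).2
  have hVj : 1 ≤ V ^ j := one_le_pow₀ hV1
  have hfac : (1 : ℝ) ≤ (2 * j).factorial := by exact_mod_cast Nat.one_le_iff_ne_zero.2 (Nat.factorial_ne_zero _)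
  have herr : (I.card : ℝ) ^ (2 * j) / (2 * H + 1) ≤ 1 := by
    rw [div_le_one (by positivity)]
    calc (I.card : ℝ) ^ (2 * j) ≤ (x : ℝ) ^ (2 * j) := by
          apply pow_le_pow_left₀ (by positivity)
          exact_mod_cast hIx
      _ ≤ 2 * H + 1 := by exact_mod_cast hxH
  have htot : ∑ n ∈ s, (∑ a ∈ I, F a (m n)) ^ (2 * j) ≤ (12 * (2 * j).factorial * V ^ j) * s.card := by
    have h1 : (∑ n ∈ s, (∑ a ∈ I, F a (m n)) ^ (2 * j)) / s.card ≤ 12 * (2 * j).factorial * V ^ j := by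
      have h2 : (1 : ℝ) ≤ 6 * (2 * j).factorial * V ^ j := by
        have h3 : (1 : ℝ) ≤ (2 * j).factorial * V ^ j := one_le_mul_of_one_le_of_one_le hfac hVj
        nlinarith
      linarith
    rwa [div_le_iff₀ hs] at h1
  have hcheb : (Ex.card : ℝ) * (V ^ j * ((x : ℝ) ^ δ) ^ (2 * j)) ≤ ∑ n ∈ s, (∑ a ∈ I, F a (m n)) ^ (2 * j) := by
    calc (Ex.card : ℝ) * (V ^ j * ((x : ℝ) ^ δ) ^ (2 * j)) =
          ∑ _S ∈ Ex, (V ^ j * ((x : ℝ) ^ δ) ^ (2 * j)) := by rw [sum_const, nsmul_eq_mul]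
      _ ≤ ∑ n ∈ Ex, (∑ a ∈ I, F a (m n)) ^ (2 * j) := by
          refine sum_le_sum fun n hn => ?_
          have h1 : V ^ j = (Real.sqrt V) ^ (2 * j) := by
            rw [pow_mul, Real.sq_sqrt (by linarith)]
          rw [h1, ← mul_pow, ← (even_two_mul j).pow_abs (∑ a ∈ I, F a (m n))]
          exact pow_le_pow_left₀ (by positivity) (hExb n hn).le _
      _ ≤ _ := by
          apply sum_le_sum_of_subset_of_nonneg hEx
          intro n _ _
          exact (even_two_mul j).pow_nonneg _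
  have h5 := hcheb.trans htot
  have hVj0 : 0 < V ^ j := by positivity
  have h6 : (Ex.card : ℝ) * ((x : ℝ) ^ δ) ^ (2 * j) ≤ (12 * (2 * j).factorial) * s.card := by
    have : ((Ex.card : ℝ) * ((x : ℝ) ^ δ) ^ (2 * j)) * V ^ j ≤ ((12 * (2 * j).factorial) * s.card) * V ^ j := by linarith
    exact le_of_mul_le_mul_right this hVj0
  have h7 : 12 * ((2 * j).factorial : ℝ) * (x : ℝ) ^ A ≤ ((x : ℝ) ^ δ) ^ (2 * j) := by
    have e1 : 12 * ((2 * j).factorial : ℝ) ≤ x := by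
      refine hx₃.trans ?_
      exact_mod_cast (by omega : x₃ ≤ x)
    calc 12 * ((2 * j).factorial : ℝ) * (x : ℝ) ^ A ≤ x * (x : ℝ) ^ A := by gcongr
      _ = (x : ℝ) ^ (1 + A) := by
          rw [Real.rpow_add hx0, Real.rpow_one]
      _ ≤ (x : ℝ) ^ (δ * (2 * j : ℕ)) := by
          apply Real.rpow_le_rpow_of_exponent_le hx1'
          have e2 := le_abs_self A
          have e3 := abs_nonneg A
          push_cast
          nlinarith
      _ = ((x : ℝ) ^ δ) ^ (2 * j) := by rw [Real.rpow_mul hx0.le, Real.rpow_natCast]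
  have hxA : 0 < (x : ℝ) ^ A := by positivity
  rw [Real.rpow_neg hx0.le]
  have h8 : (Ex.card : ℝ) * (12 * ((2 * j).factorial : ℝ) * (x : ℝ) ^ A) ≤ (12 * ((2 * j).factorial : ℝ)) * s.card :=
    (mul_le_mul_of_nonneg_left h7 (Nat.cast_nonneg _)).trans h6
  have h9 : (Ex.card : ℝ) * (x : ℝ) ^ A ≤ s.card := by
    have e1 : 0 < 12 * ((2 * j).factorial : ℝ) := by positivity
    have e2 : (12 * ((2 * j).factorial : ℝ)) * ((Ex.card : ℝ) * (x : ℝ) ^ A) ≤ (12 * ((2 * j).factorial : ℝ)) * s.card := by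
      linarith
    exact le_of_mul_le_mul_left e2 e1
  rw [inv_mul_eq_div, le_div_iff₀ hxA]
  exact h9

theorem mean_abs_le' {d q : ℕ} (hq : 1 ≤ q) (F : (Fin d → ℕ) → ℝ) (hF : ∀ n, |F n| ≤ 1) : |mean d q F| ≤ 1 := by
  rw [abs_le]
  constructor
  · have h1 := mean_mono (d := d) (q := q) (F := fun _ => (-1 : ℝ)) (G := F) (fun n => (abs_le.1 (hF n)).1)
    rw [mean_const d q hq] at h1
    exact h1
  · have h1 := mean_mono (d := d) (q := q) (F := F) (G := fun _ => (1 : ℝ)) (fun n => (abs_le.1 (hF n)).2)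
    rw [mean_const d q hq] at h1
    exact h1

/-- arbitrary bounded local functions, fixed `x` -/
theorem local_lawW (d : ℕ) (δ A : ℝ) (hδ : 0 < δ) : ∃ M : ℕ, ∃ x₀ : ℕ,
    ∀ (s : Finset ℕ) (m : ℕ → Fin d → ℕ) (H x : ℕ), WellN s m H → x₀ ≤ x → x ^ M ≤ 2 * H + 1 →
    ∀ {ι : Type} (I : Finset ι) (q : ι → ℕ), I.card ≤ x → (∀ a ∈ I, 1 ≤ q a ∧ q a ≤ x) →
    (∀ a ∈ I, ∀ a' ∈ I, a ≠ a' → Nat.Coprime (q a) (q a')) → ∀ G : ι → (Fin d → ℕ) → ℝ,
    (∀ a ∈ I, Per (q a) (G a)) → (∀ a ∈ I, ∀ n, |G a n| ≤ 1) →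
    ∀ Ex ⊆ s, (∀ n ∈ Ex, Real.sqrt (max 1 (∑ a ∈ I, mean d (q a) (fun v => G a v ^ 2))) * (x : ℝ) ^ δ <
      |∑ a ∈ I, G a (m n) - ∑ a ∈ I, mean d (q a) (G a)|) →
    (Ex.card : ℝ) ≤ (x : ℝ) ^ (-A) * s.card := by
  classical
  obtain ⟨M, x₀, h⟩ := engineW d (δ / 2) A (by positivity)
  have hev : ∀ᶠ x : ℕ in atTop, (2 : ℝ) ≤ (x : ℝ) ^ (δ / 2) := by
    have h1 : Tendsto (fun x : ℝ => x ^ (δ / 2)) atTop atTop := tendsto_rpow_atTop (by positivity)
    exact (h1.comp tendsto_natCast_atTop_atTop).eventually (eventually_ge_atTop _)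
  obtain ⟨x₁, hx₁⟩ := eventually_atTop.1 hev
  refine ⟨M, x₀ + x₁ + 1, fun s m H x hw hx hxH ι I q hIx hq hcop G hG hG1 Ex hEx hExb => ?_⟩
  have hx1 := hx₁ x (by omega)
  have hxr1 : (1 : ℝ) ≤ x := by exact_mod_cast (by omega : 1 ≤ x)
  have hx0 : (0 : ℝ) < x := by linarith
  obtain ⟨F, hF⟩ : ∃ F : ι → (Fin d → ℕ) → ℝ, F = fun a n => (G a n - mean d (q a) (G a)) / 2 := ⟨_, rfl⟩
  obtain ⟨V, hV⟩ : ∃ V, V = max 1 (∑ a ∈ I, mean d (q a) (fun n => G a n ^ 2)) := ⟨_, rfl⟩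
  have hFb : ∀ a ∈ I, ∀ n, |F a n| ≤ 1 := by
    intro a ha n
    rw [hF]
    show |(G a n - mean d (q a) (G a)) / 2| ≤ 1
    have h1 := abs_le.1 (hG1 a ha n)
    have h2 := abs_le.1 (mean_abs_le' (hq a ha).1 (G a) (hG1 a ha))
    rw [abs_le]
    constructor <;> linarith [h1.1, h1.2, h2.1, h2.2]
  have hV1 : 1 ≤ V := by rw [hV]; exact le_max_left _ _
  refine h s m H x hw (by omega) hxH I q hIx hq hcop F (by
    intro a ha
    refine ⟨fun n => ?_, hFb a ha, ?_⟩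
    · rw [hF]
      show (G a n - mean d (q a) (G a)) / 2 = (G a (fun i => n i % q a) - mean d (q a) (G a)) / 2
      rw [← hG a ha n]
    · rw [hF]
      show mean d (q a) (fun n => (G a n - mean d (q a) (G a)) / 2) = 0
      have h1 : (fun n : Fin d → ℕ => (G a n - mean d (q a) (G a)) / 2) =
          fun n => (1 / 2 : ℝ) * G a n + (fun _ => -(mean d (q a) (G a)) / 2) n := by
        funext n
        ring
      rw [h1, mean_add (fun n => (1 / 2 : ℝ) * G a n), mean_const d (q a) (hq a ha).1, mean_mul]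
      ring)
    V hV1 (by
    have h1 : ∀ a ∈ I, mean d (q a) (fun n => F a n ^ 2) ≤ mean d (q a) (fun n => G a n ^ 2) := by
      intro a ha
      obtain ⟨M, hM⟩ : ∃ M, M = mean d (q a) (G a) := ⟨_, rfl⟩
      have h2 : (fun n : Fin d → ℕ => F a n ^ 2) = fun n => (1 / 4 : ℝ) * G a n ^ 2 + ((-(M / 2)) * G a n + (fun _ => M ^ 2 / 4) n) := by
        funext n
        rw [hF, hM]
        ring
      have h0 : 0 ≤ mean d (q a) (fun n => G a n ^ 2) := by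
        unfold mean
        exact mul_nonneg (by positivity) (sum_nonneg fun n _ => sq_nonneg _)
      rw [h2, mean_add (fun n => (1 / 4 : ℝ) * G a n ^ 2), mean_add (fun n => (-(M / 2)) * G a n), mean_const d (q a) (hq a ha).1, mean_mul, mean_mul, ← hM]
      nlinarith [sq_nonneg M]
    rw [hV]
    exact (sum_le_sum h1).trans (le_max_right _ _))
    Ex hEx ?_
  intro n hn
  have hlt := hExb n hn
  rw [← hV] at hlt
  have hsum : ∑ a ∈ I, G a (m n) - ∑ a ∈ I, mean d (q a) (G a) = 2 * ∑ a ∈ I, F a (m n) := by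
    rw [hF, mul_sum, ← sum_sub_distrib]
    exact sum_congr rfl fun a _ => by ring
  rw [hsum, abs_mul, abs_two] at hlt
  have hxδ : (x : ℝ) ^ δ = (x : ℝ) ^ (δ / 2) * (x : ℝ) ^ (δ / 2) := by
    rw [← Real.rpow_add hx0]
    congr 1
    ring
  obtain ⟨u, hu⟩ : ∃ u, u = (x : ℝ) ^ (δ / 2) := ⟨_, rfl⟩
  rw [← hu] at hx1 hxδ ⊢
  rw [hxδ] at hlt
  have h4 : Real.sqrt V * u * 2 ≤ Real.sqrt V * (u * u) := by
    have h7 : 0 ≤ Real.sqrt V * u := mul_nonneg (Real.sqrt_nonneg _) (by linarith)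
    nlinarith
  linarith

/-- **Arbitrary bounded local functions, uniformly in the length and in many parameters.** -/
theorem lawW (d : ℕ) (δ A A₂ : ℝ) (hδ : 0 < δ) : ∃ M : ℕ, ∃ x₀ : ℕ,
    ∀ (s : Finset ℕ) (m : ℕ → Fin d → ℕ) (H y : ℕ), WellN s m H → x₀ ≤ y →
    ∀ (κ : Type) (Λ : ℕ → Finset κ), (∀ x, x₀ ≤ x → ((Λ x).card : ℝ) ≤ (x : ℝ) ^ A₂) →
    ∀ (ι : Type) (I : ℕ → κ → Finset ι) (q : κ → ι → ℕ), (∀ x, ∀ l ∈ Λ x, (I x l).card ≤ x) →
    (∀ x, ∀ l ∈ Λ x, ∀ a ∈ I x l, 1 ≤ q l a ∧ q l a ≤ x) →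
    (∀ x, ∀ l ∈ Λ x, ∀ a ∈ I x l, ∀ a' ∈ I x l, a ≠ a' → Nat.Coprime (q l a) (q l a')) → ∀ G : κ → ι → (Fin d → ℕ) → ℝ,
    (∀ x, ∀ l ∈ Λ x, ∀ a ∈ I x l, Per (q l a) (G l a)) → (∀ x, ∀ l ∈ Λ x, ∀ a ∈ I x l, ∀ n, |G l a n| ≤ 1) →
    ∀ Ex ⊆ s, (∀ n ∈ Ex, ∃ x : ℕ, y ≤ x ∧ x ^ M ≤ 2 * H + 1 ∧ ∃ l ∈ Λ x,
      Real.sqrt (max 1 (∑ a ∈ I x l, mean d (q l a) (fun v => G l a v ^ 2))) * (x : ℝ) ^ δ <
      |∑ a ∈ I x l, G l a (m n) - ∑ a ∈ I x l, mean d (q l a) (G l a)|) →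
    (Ex.card : ℝ) ≤ (y : ℝ) ^ (-A) * s.card := by
  classical
  obtain ⟨M', x₀, h⟩ := local_lawW d δ (|A| + A₂ + 2) hδ
  obtain ⟨M, hM⟩ : ∃ M, M = M' + 1 := ⟨_, rfl⟩
  refine ⟨M, x₀ + 2, fun s m H y hw hy κ Λ hΛ ι I q hIx hq hcop G hG hG1 Ex hEx hExb => ?_⟩
  have hyr : (2 : ℝ) ≤ y := by exact_mod_cast (by omega : 2 ≤ y)
  have hy0 : (0 : ℝ) < y := by linarith
  obtain ⟨X, hX⟩ : ∃ X, X = 2 * H + 1 := ⟨_, rfl⟩
  obtain ⟨C, hC⟩ : ∃ C : ℝ, C = (s.card : ℝ) := ⟨_, rfl⟩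
  have hC0 : 0 ≤ C := by rw [hC]; exact Nat.cast_nonneg _
  obtain ⟨Bd, hBd⟩ : ∃ Bd : ℕ → κ → Finset ℕ, Bd = fun x l => Ex.filter (fun n =>
      Real.sqrt (max 1 (∑ a ∈ I x l, mean d (q l a) (fun v => G l a v ^ 2))) * (x : ℝ) ^ δ <
      |∑ a ∈ I x l, G l a (m n) - ∑ a ∈ I x l, mean d (q l a) (G l a)|) := ⟨_, rfl⟩
  have hcov : Ex ⊆ (Ioo (y - 1) (X + 1)).biUnion (fun x => (Λ x).biUnion (fun l => if x ^ M ≤ 2 * H + 1 then Bd x l else ∅)) := by
    intro n hn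
    obtain ⟨x, hyx, hxH, l, hl, hlt⟩ := hExb n hn
    rw [mem_biUnion]
    refine ⟨x, ?_, ?_⟩
    · rw [mem_Ioo]
      refine ⟨by omega, ?_⟩
      have h2 : x ≤ x ^ M := Nat.le_self_pow (by omega) x
      omega
    · rw [mem_biUnion]
      refine ⟨l, hl, ?_⟩
      rw [if_pos hxH, hBd, mem_filter]
      exact ⟨hn, hlt⟩
  have h1 : (Ex.card : ℝ) ≤ ∑ x ∈ Ioo (y - 1) (X + 1), ((x : ℝ) ^ 2)⁻¹ * ((x : ℝ) ^ (-|A|) * C) := by
    have h2 := (card_le_card hcov).trans (card_biUnion_le.trans (sum_le_sum fun x _ => card_biUnion_le))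
    have h3 : (Ex.card : ℝ) ≤ ∑ x ∈ Ioo (y - 1) (X + 1), ∑ l ∈ Λ x, ((if x ^ M ≤ 2 * H + 1 then Bd x l else ∅).card : ℝ) := by
      exact_mod_cast h2
    refine h3.trans (sum_le_sum fun x hx => ?_)
    rw [mem_Ioo] at hx
    have hxx : x₀ ≤ x := by omega
    have hxp : (0 : ℝ) < x := by exact_mod_cast (by omega : 0 < x)
    have h4 : ∀ l ∈ Λ x, (((if x ^ M ≤ 2 * H + 1 then Bd x l else ∅) : Finset ℕ).card : ℝ) ≤
        (x : ℝ) ^ (-(|A| + A₂ + 2)) * C := by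
      intro l hl
      split_ifs with hlog
      · rw [hC]
        have hxM' : x ^ M' ≤ 2 * H + 1 := le_trans (Nat.pow_le_pow_right (by omega) (by omega)) hlog
        refine h s m H x hw hxx hxM' (I x l) (q l) (hIx x l hl) (hq x l hl) (hcop x l hl) (G l) (hG x l hl) (hG1 x l hl) (Bd x l) ?_ ?_
        · rw [hBd]
          exact (filter_subset _ _).trans hEx
        · intro S hS
          rw [hBd, mem_filter] at hS
          exact hS.2
      · rw [card_empty, Nat.cast_zero]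
        positivity
    refine (sum_le_sum h4).trans ?_
    rw [sum_const, nsmul_eq_mul]
    calc ((Λ x).card : ℝ) * ((x : ℝ) ^ (-(|A| + A₂ + 2)) * C) ≤ (x : ℝ) ^ A₂ * ((x : ℝ) ^ (-(|A| + A₂ + 2)) * C) :=
          mul_le_mul_of_nonneg_right (hΛ x (by omega)) (by positivity)
      _ = ((x : ℝ) ^ A₂ * (x : ℝ) ^ (-(|A| + A₂ + 2))) * C := by ring
      _ = ((x : ℝ) ^ 2)⁻¹ * ((x : ℝ) ^ (-|A|) * C) := by
          rw [← Real.rpow_natCast, ← Real.rpow_neg hxp.le, ← mul_assoc, ← Real.rpow_add hxp, ← Real.rpow_add hxp]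
          congr 2
          push_cast
          ring
  have h5 : ∑ x ∈ Ioo (y - 1) (X + 1), ((x : ℝ) ^ 2)⁻¹ * ((x : ℝ) ^ (-|A|) * C) ≤ (∑ x ∈ Ioo (y - 1) (X + 1), ((x : ℝ) ^ 2)⁻¹) * ((y : ℝ) ^ (-|A|) * C) := by
    rw [sum_mul]
    refine sum_le_sum fun x hx => ?_
    rw [mem_Ioo] at hx
    apply mul_le_mul_of_nonneg_left _ (by positivity)
    apply mul_le_mul_of_nonneg_right _ hC0
    apply Real.rpow_le_rpow_of_nonpos hy0 _ (by have := abs_nonneg A; linarith)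
    exact_mod_cast (by omega : y ≤ x)
  have h6 : ∑ x ∈ Ioo (y - 1) (X + 1), ((x : ℝ) ^ 2)⁻¹ ≤ 1 := by
    have h7 := sum_Ioo_inv_sq_le (α := ℝ) (y - 1) (X + 1)
    refine h7.trans ?_
    rw [div_le_one (by positivity)]
    have : (1 : ℝ) ≤ ((y - 1 : ℕ) : ℝ) := by exact_mod_cast (by omega : 1 ≤ y - 1)
    linarith
  refine h1.trans (h5.trans ?_)
  calc (∑ x ∈ Ioo (y - 1) (X + 1), ((x : ℝ) ^ 2)⁻¹) * ((y : ℝ) ^ (-|A|) * C) ≤ 1 * ((y : ℝ) ^ (-|A|) * C) :=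
        mul_le_mul_of_nonneg_right h6 (by positivity)
    _ = (y : ℝ) ^ (-|A|) * C := one_mul _
    _ ≤ (y : ℝ) ^ (-A) * s.card := by
        rw [← hC]
        apply mul_le_mul_of_nonneg_right _ hC0
        apply Real.rpow_le_rpow_of_exponent_le (by linarith)
        have := le_abs_self A
        linarith

end Pool.Agent.N647.TS
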