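import Pool.Agent.N647.TS.GenRT
import Pool.Agent.N842.HS.PrmG

/-!
# Sums over the prime ideals of bounded norm, at the integer parts of generalised polynomials

The analogue of `Pool.Agent.N842.HS.genV`.
-/

set_option autoImplicit false

namespace Pool.Agent.N647.TS

open Finset NumberField IsDedekindDomain
open Pool.Agent.TH894.NE (mean box mem_box)
open Pool.Agent.TH894.NF (pr pr_prime)
open Pool.Agent.N842.HS

section
variable {K : Type} [Field K] [NumberField K]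

open Classical in
/-- **Local functions at the prime ideals of bounded norm.** -/
theorem genVT (g D : ℕ) (ω : Fin g → 𝓞 K) (hω : (1 : 𝓞 K) ∈ Submodule.span ℤ (Set.range ω)) (hD : 1 ≤ D * g)
    {P : Fin (D * g) → Finset ℝ} {a : Fin (D * g) → ℝ → ℝ} {c : Fin (D * g) → ℝ}
    (h : ∀ i, Adm (P i) (a i) (c i)) (hc : Function.Injective c)
    (δ : ℝ) (hδ : 0 < δ) (A B : ℕ) {Θ : Type} (Q : Finset Θ)
    (G : Θ → ∀ (p : ℕ) [Fact p.Prime], (Fin D → ZMod p) → ℝ) (M : Θ → ℝ) (η : ℝ) (hη : 0 ≤ η)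
    (hbd : ∀ θ ∈ Q, ∃ C : ℝ, 0 ≤ C ∧ ∀ (p : ℕ) [Fact p.Prime], (∀ u, |G θ p u| ≤ C * (p : ℝ) ^ η) ∧ |M θ| ≤ C * (p : ℝ) ^ η)
    (hmean : ∀ θ ∈ Q, ∃ C : ℝ, 0 ≤ C ∧ ∀ (p : ℕ) [Fact p.Prime], |(∑ u : Fin D → ZMod p, G θ p u) / (p : ℝ) ^ D - M θ| ≤ C / Real.sqrt p) :
    ∃ κ : ℝ, 0 < κ ∧ ∃ y₀ : ℕ, ∀ y N : ℕ, y₀ ≤ y →
    ∀ W : ℕ → Set (HeightOneSpectrum (𝓞 K) → ℝ), (∀ T, (W T).Finite ∧ (W T).ncard ≤ T ^ B) → (∀ T, ∀ w ∈ W T, ∀ v, |w v| ≤ 1) →
    ∀ E : (Fin (D * g) → ℕ) → Prop,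
    (∀ m : Fin (D * g) → ℕ, (∀ T : ℕ, y ≤ T → (T : ℝ) ≤ (N : ℝ) ^ κ → ∀ w ∈ W T, ∀ θ ∈ Q,
      ∀ F : HeightOneSpectrum (𝓞 K) → ℝ, (∀ (p : ℕ) [Fact p.Prime] (φ : 𝓞 K →+* ZMod p), F (hv φ) = G θ p (fun j => φ (cf ω m j))) →
      |∑ v ∈ (VT K T).filter (fun v => (Ideal.absNorm v.asIdeal).Prime), w v * ((F v - M θ) * Real.log (Ideal.absNorm v.asIdeal))| ≤
        (T : ℝ) ^ (1 / 2 + η + δ)) → E m) →
    (((Ioc N (2 * N)).filter fun t => ¬ E (pv P a t)).card : ℝ) ≤ 1 / (y : ℝ) ^ A * N ∧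
    ((((Ioc N (2 * N)).filter Nat.Prime).filter fun t => ¬ E (pv P a t)).card : ℝ) ≤
      1 / (y : ℝ) ^ A * ((Ioc N (2 * N)).filter Nat.Prime).card := by
  obtain ⟨n, hn⟩ := hom_card (𝓞 K)
  obtain ⟨κ, hκ, y₀, hg⟩ := genRT g D 1 ω hω hD le_rfl h hc (δ / 2) (by positivity) (2 * A + 1) (2 * B + 2) Q G (fun θ _ => M θ) η hη hbd hmean
  obtain ⟨x₁, hx₁⟩ := Filter.eventually_atTop.1 (ev_err n η δ hη hδ)
  obtain ⟨x₂, hx₂⟩ := Filter.eventually_atTop.1 (pr_bound 0 1 one_pos)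
  obtain ⟨a4, ha4⟩ : ∃ a4 : ℕ, a4 = 4 ^ A := ⟨_, rfl⟩
  obtain ⟨Y, hY⟩ : ∃ Y : ℕ, Y = y₀ + x₁ + x₂ + a4 + 1 := ⟨_, rfl⟩
  -- the number `Y ^ 2` and its prime counting function
  refine ⟨κ, hκ, (pr (Y + 1)) ^ 2, fun y N hy W hW hW1 E hE => ?_⟩
  have hprY : Y + 2 ≤ pr (Y + 1) := pr_ge (Y + 1)
  have hysq : Y ≤ Nat.sqrt y := by
    rw [Nat.le_sqrt']
    refine le_trans ?_ hy
    exact Nat.pow_le_pow_left (by omega) 2
  obtain ⟨W', hW'⟩ : ∃ W' : ℕ → Set ((k : ℕ) → ((e : Fin 1) → (𝓞 K →+* ZMod (Nat.nth Nat.Prime (k + e)))) → ℝ),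
      W' = fun x => ↑(((range (x ^ 2)).sigma (fun T => (hW T).1.toFinset)).image (fun z => wv x z.2)) := ⟨_, rfl⟩
  have hWc : ∀ x, (W' x).Finite ∧ (W' x).ncard ≤ x ^ (2 * B + 2) := by
    intro x
    rw [hW']
    beta_reduce
    refine ⟨finite_toSet _, ?_⟩
    rw [Set.ncard_coe_finset]
    refine card_image_le.trans ?_
    rw [card_sigma]
    refine (sum_le_sum (g := fun _ => x ^ (2 * B)) fun T hT => ?_).trans ?_
    · rw [← Set.ncard_eq_toFinset_card _ (hW T).1]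
      refine (hW T).2.trans ?_
      rw [mem_range] at hT
      rw [pow_mul]
      exact Nat.pow_le_pow_left hT.le B
    · rw [sum_const, card_range, smul_eq_mul, ← pow_add, add_comm]
  have hmain := hg (Nat.sqrt y) N (by omega) W' hWc (fun x w' hw' k φ => ?_) E fun m hm => ?_
  · have hfac : 1 / ((Nat.sqrt y : ℕ) : ℝ) ^ (2 * A + 1) ≤ 1 / (y : ℝ) ^ A := ?_
    · exact ⟨hmain.1.trans (mul_le_mul_of_nonneg_right hfac (Nat.cast_nonneg _)),
        hmain.2.trans (mul_le_mul_of_nonneg_right hfac (Nat.cast_nonneg _))⟩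
    have hy0 : 0 < y := by
      refine lt_of_lt_of_le ?_ hy
      exact pow_pos (pr_prime _).pos 2
    have hs1 : 1 ≤ Nat.sqrt y := by omega
    have h1 : y ≤ 4 * (Nat.sqrt y) ^ 2 := by
      have := Nat.lt_succ_sqrt y
      have h2 : Nat.sqrt y + 1 ≤ 2 * Nat.sqrt y := by omega
      nlinarith
    apply one_div_le_one_div_of_le (by positivity)
    have h2 : (y : ℝ) ≤ 4 * (Nat.sqrt y : ℝ) ^ 2 := by exact_mod_cast h1
    have h3 : (4 : ℝ) ^ A ≤ Nat.sqrt y := by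
      have : 4 ^ A ≤ Nat.sqrt y := by omega
      exact_mod_cast this
    calc (y : ℝ) ^ A ≤ (4 * (Nat.sqrt y : ℝ) ^ 2) ^ A := pow_le_pow_left₀ (Nat.cast_nonneg _) h2 A
      _ = 4 ^ A * (Nat.sqrt y : ℝ) ^ (2 * A) := by rw [mul_pow, ← pow_mul]
      _ ≤ (Nat.sqrt y : ℝ) * (Nat.sqrt y : ℝ) ^ (2 * A) := mul_le_mul_of_nonneg_right h3 (by positivity)
      _ = (Nat.sqrt y : ℝ) ^ (2 * A + 1) := by ring
  · rw [hW'] at hw'
    beta_reduce at hw'
    rw [mem_coe, mem_image] at hw'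
    obtain ⟨z, hz, rfl⟩ := hw'
    rw [mem_sigma, Set.Finite.mem_toFinset] at hz
    exact wv_le x z.2 (hW1 _ _ hz.2) k φ
  · refine hE m fun T hyT hTr w hw θ hθ F hF => ?_
    obtain ⟨x, hx⟩ : ∃ x : ℕ, x = Nat.primeCounting T := ⟨_, rfl⟩
    have hxT : x ≤ T := by rw [hx]; exact pi_le T
    have hYx : Y + 1 ≤ x := by
      rw [hx]
      have e1 : pr (Y + 1) ≤ T := by
        refine le_trans ?_ (hy.trans hyT)
        exact Nat.le_self_pow two_ne_zero _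
      have e2 : Nat.primeCounting (pr (Y + 1)) ≤ Nat.primeCounting T := Nat.monotone_primeCounting e1
      rw [pi_pr] at e2
      omega
    have hTx : T < x ^ 2 := by
      have e1 := hx₂ x (by omega)
      have e2 := lt_pr_pi T
      rw [← hx] at e2
      rw [add_zero] at e1
      have e3 : ((x : ℝ)) ^ ((1 : ℝ) + 1) = (x : ℝ) ^ 2 := by
        rw [show ((1 : ℝ) + 1) = ((2 : ℕ) : ℝ) by norm_num, Real.rpow_natCast]
      rw [e3] at e1
      have e4 : pr x ≤ x ^ 2 := by exact_mod_cast e1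
      omega
    have hsx : Nat.sqrt y ≤ x := by
      have e1 : Nat.sqrt y < x := by
        rw [Nat.sqrt_lt']
        omega
      omega
    have hw' : wv x w ∈ W' x := by
      rw [hW']
      beta_reduce
      rw [mem_coe, mem_image]
      exact ⟨⟨T, w⟩, by rw [mem_sigma, mem_range, Set.Finite.mem_toFinset]; exact ⟨hTx, hw⟩, rfl⟩
    have h1 := hm x hsx (le_trans (by exact_mod_cast hxT) hTr) (wv x w) hw' (fun _ => θ) (fun _ => hθ)
    rw [Nat.cast_one, one_mul] at h1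
    -- the sum
    have h2 : ∑ v ∈ (VT K T).filter (fun v => (Ideal.absNorm v.asIdeal).Prime), w v * ((F v - M θ) * Real.log (Ideal.absNorm v.asIdeal)) =
        Real.log (Nat.nth Nat.Prime x) * ∑ k ∈ range x, ∑ᶠ φ : (e : Fin 1) → (𝓞 K →+* ZMod (Nat.nth Nat.Prime (k + e))),
          wv x w k φ * (∏ e : Fin 1, G θ (Nat.nth Nat.Prime (k + e)) (fun j => φ e (cf ω m j)) - ∏ e : Fin 1, M θ) := by
      rw [sum_deg1, ← hx, mul_sum]
      refine sum_congr rfl fun k hk => ?_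
      rw [mem_range] at hk
      have hfin : Finite ((e : Fin 1) → (𝓞 K →+* ZMod (Nat.nth Nat.Prime (k + e)))) := by
        have : ∀ e : Fin 1, Finite (𝓞 K →+* ZMod (Nat.nth Nat.Prime (k + e))) := fun e => hom_finite (𝓞 K) _
        exact Pi.finite
      have hft : Fintype ((e : Fin 1) → (𝓞 K →+* ZMod (Nat.nth Nat.Prime (k + e)))) := Fintype.ofFinite _
      rw [finsum_eq_sum_of_fintype, finsum_eq_sum_of_fintype, mul_sum]
      refine sum_congr rfl fun φ _ => ?_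
      rw [Fin.prod_univ_one, Fin.prod_univ_one, hF]
      unfold wv
      rw [if_pos hk]
      have hl := (log_nth x).ne'
      field_simp
    rw [h2, abs_mul, abs_of_pos (log_nth x)]
    refine (mul_le_mul_of_nonneg_left h1 (log_nth x).le).trans ?_
    refine le_trans ?_ (hx₁ x (by omega) T hxT)
    apply mul_le_mul_of_nonneg_left _ (log_nth x).le
    apply mul_le_mul_of_nonneg_right _ (by positivity)
    apply Real.sqrt_le_sqrt
    apply max_le_max le_rfl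
    -- the number of the prime ideals
    have h3 : ∀ k ∈ range x, ∑ᶠ φ : (e : Fin 1) → (𝓞 K →+* ZMod (Nat.nth Nat.Prime (k + e))), wv x w k φ ^ 2 ≤ n := by
      intro k _
      have hfin : Finite ((e : Fin 1) → (𝓞 K →+* ZMod (Nat.nth Nat.Prime (k + e)))) := by
        have : ∀ e : Fin 1, Finite (𝓞 K →+* ZMod (Nat.nth Nat.Prime (k + e))) := fun e => hom_finite (𝓞 K) _
        exact Pi.finite
      have hft : Fintype ((e : Fin 1) → (𝓞 K →+* ZMod (Nat.nth Nat.Prime (k + e)))) := Fintype.ofFinite _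
      rw [finsum_eq_sum_of_fintype]
      refine (sum_le_sum (g := fun _ => (1 : ℝ)) fun φ _ => ?_).trans ?_
      · rw [← sq_abs]
        exact pow_le_one₀ (abs_nonneg _) (wv_le x w (hW1 T w hw) k φ)
      · rw [sum_const, card_univ, nsmul_eq_mul, mul_one]
        have h4 := Fintype.card_le_of_injective _ (num_inj (R := 𝓞 K) (s := 1) hn k)
        rw [Fintype.card_fun, Fintype.card_fin, Fintype.card_fin, pow_one] at h4
        exact_mod_cast h4
    refine (sum_le_sum h3).trans ?_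
    rw [sum_const, card_range, nsmul_eq_mul, mul_comm]

end

end Pool.Agent.N647.TS
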