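import Pool.Agent.N647.TS.GenPT
import Pool.Agent.N842.HS.MomR

/-!
# The moments of the traces of almost all hypersurfaces, at the integer parts of generalised polynomials

The analogue of `Pool.Agent.N842.HS.momZ`.
-/

set_option autoImplicit false

namespace Pool.Agent.N647.TS

open Finset MeasureTheory ProbabilityTheory
open Pool.Agent.TH894.NE (mean box mem_box)
open Pool.Agent.TH894.NF (pr pr_prime)
open Pool.Agent.N842.HS

section
variable {N d D : ℕ} (e : Fin D ≃ Mon N d)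

open Classical in
/-- **The moments over the rational numbers.** -/
theorem momZT (hN : 2 ≤ N) (hd : 2 ≤ d) (s q : ℕ)
    {P : Fin D → Finset ℝ} {a : Fin D → ℝ → ℝ} {c : Fin D → ℝ}
    (ha : ∀ i, Adm (P i) (a i) (c i)) (hc : Function.Injective c) (hs : 1 ≤ s) (hq : 2 ≤ q) (hq2 : Even q) (δ : ℝ) (hδ : 0 < δ) (A B : ℕ) :
    ∃ κ : ℝ, 0 < κ ∧ ∃ y₀ : ℕ, ∀ y N₁ : ℕ, y₀ ≤ y →
    ∀ W : ℕ → Set (ℕ → ℝ), (∀ x, (W x).Finite ∧ (W x).ncard ≤ x ^ B) → (∀ x, ∀ w ∈ W x, ∀ k, |w k| ≤ 1) →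
    ∀ E : (Fin D → ℕ) → Prop,
    (∀ m : Fin D → ℕ, (∀ x : ℕ, y ≤ x → (x : ℝ) ≤ (N₁ : ℝ) ^ κ → ∀ w ∈ W x,
      ∀ ρ : Fin s → Fin d → ℕ, (∀ i, q * ∑ j : Fin d, (j + 1 : ℕ) * ρ i j ≤ d) →
      |∑ k ∈ range x, w k * ∏ i : Fin s, FZ e (ρ i) (1 / (2 * (q - 1))) (pr (k + i)) m -
        ∑ k ∈ range x, w k * ∏ i : Fin s, ∏ j : Fin d, muk N (j + 1) (ρ i j)| ≤
        Real.sqrt (max 1 (∑ k ∈ range x, w k ^ 2)) * (x : ℝ) ^ (s / (2 * (q - 1)) + δ)) → E m) →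
    (((Ioc N₁ (2 * N₁)).filter fun t => ¬ E (pv P a t)).card : ℝ) ≤ 1 / (y : ℝ) ^ A * N₁ ∧
    ((((Ioc N₁ (2 * N₁)).filter Nat.Prime).filter fun t => ¬ E (pv P a t)).card : ℝ) ≤
      1 / (y : ℝ) ^ A * ((Ioc N₁ (2 * N₁)).filter Nat.Prime).card := by
  have hD := D_pos e (by omega : 0 < d)
  have hq1 : (0 : ℝ) < q - 1 := by
    have : (2 : ℝ) ≤ q := by exact_mod_cast hq
    linarith
  have hη : (0 : ℝ) ≤ 1 / (2 * (q - 1)) := by positivity
  obtain ⟨κ, hκ, y₀, h⟩ := genpT D s hD hs ha hc δ hδ A B (expq d q)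
    (fun ρ p m => FZ e ρ (1 / (2 * (q - 1))) p m) (fun ρ _ => ∏ j : Fin d, muk N (j + 1) (ρ j)) (1 / (2 * (q - 1))) hη
    (fun ρ _ p _ m => FZ_mod e ρ _ p m)
    (fun ρ _ => ⟨1 + |∏ j : Fin d, muk N (j + 1) (ρ j)|, fun p hp => by
      have : Fact p.Prime := ⟨hp⟩
      have h1 : (1 : ℝ) ≤ (p : ℝ) ^ ((1 : ℝ) / (2 * (q - 1))) := Real.one_le_rpow (by exact_mod_cast hp.one_lt.le) hη
      constructor
      · intro u
        unfold FZ
        rw [dif_pos hp]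
        refine (Ft_le e ρ _ p _).trans ?_
        exact le_mul_of_one_le_left (by linarith) (le_add_of_nonneg_right (abs_nonneg _))
      · refine (prod_muk_bd d ρ p _ hη).trans ?_
        apply mul_le_mul_of_nonneg_right _ (by linarith)
        linarith⟩)
    (fun ρ hρ => by
      obtain ⟨C, hC0, hC⟩ := mean_Ft e hN hd ρ q hq hq2 ((mem_expq d q (by omega) ρ).1 hρ) (1 / (2 * (q - 1))) (by
        rw [div_mul_eq_mul_div, one_mul, le_div_iff₀ (by positivity)]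
        linarith)
      refine ⟨C, hC0, fun p hp => ?_⟩
      have : Fact p.Prime := ⟨hp⟩
      have h1 := hC p
      have h2 : FZ e ρ (1 / (2 * (q - 1))) p = fun m : Fin D → ℕ => Ft e ρ (1 / (2 * (q - 1))) p (fun k => (m k : ZMod p)) := by
        funext m
        unfold FZ
        rw [dif_pos hp]
      rw [h2, Pool.Agent.N842.ST.mean_eq_av p (fun u => Ft e ρ (1 / (2 * (q - 1))) p u)]
      exact h1)
  refine ⟨κ, hκ, y₀, fun y N₁ hy W hW hW1 E hE => ?_⟩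
  refine h y N₁ hy W hW hW1 E fun m hm => ?_
  refine hE m fun x hyx hxr w hw ρ hρ => ?_
  have h1 := hm x hyx hxr w hw ρ (fun i => (mem_expq d q (by omega) _).2 (hρ i))
  rw [mul_one_div] at h1
  exact h1

end

end Pool.Agent.N647.TS
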