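import Pool.Agent.N647.TS.Law
import Pool.Agent.X22.MT5

/-!
# Sums of multiplicative families of local functions at the members of a well distributed family of integer vectors

The analogue of `Pool.Agent.X22.MT.mt_one`.
-/

set_option autoImplicit false

namespace Pool.Agent.N647.TS

open Finset Filter
open Pool.Agent.TH894.NE (mean box mem_box card_box)
open Pool.Agent.X22.MT

theorem avg_nearC {d : ℕ} {s : Finset ℕ} {v : ℕ → Fin d → ℕ} {H : ℕ} (hw : WellN s v H) (q : ℕ) (hq1 : 1 ≤ q) (hq : q ≤ 2 * H + 1)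
    (G : (Fin d → ℕ) → ℂ) (hG : PerC q G) (B : ℝ) (hB : 0 ≤ B) (hG1 : ∀ m, ‖G m‖ ≤ B) :
    ‖(∑ n ∈ s, G (v n)) / s.card - 1 / (q : ℂ) ^ d * ∑ r ∈ box d q, G r‖ ≤ B / (2 * H + 1) := by
  classical
  have hs : (0 : ℝ) < s.card := by exact_mod_cast hw.pos
  have hq0 : (0 : ℝ) < q := by exact_mod_cast hq1
  have e1 : (∑ n ∈ s, G (v n)) / s.card =
      ∑ r ∈ box d q, (((#{n ∈ s | (fun i => v n i % q) = r} : ℕ) : ℝ) / s.card : ℝ) * G r := by
    have hmaps : ∀ n ∈ s, (fun i => v n i % q) ∈ box d q := by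
      intro n _
      rw [mem_box]
      intro i
      exact Nat.mod_lt _ hq1
    rw [← Finset.sum_fiberwise_of_maps_to hmaps, Finset.sum_div]
    refine Finset.sum_congr rfl fun r _ => ?_
    have h1 : ∀ n ∈ s.filter (fun n => (fun i => v n i % q) = r), G (v n) = G r := by
      intro n hn
      rw [mem_filter] at hn
      rw [hG (v n), hn.2]
    rw [Finset.sum_congr rfl h1, Finset.sum_const, nsmul_eq_mul]
    push_cast
    ring
  have e2 : 1 / (q : ℂ) ^ d * ∑ r ∈ box d q, G r = ∑ r ∈ box d q, ((1 / (q : ℝ) ^ d : ℝ) : ℂ) * G r := by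
    rw [← Finset.mul_sum]
    push_cast
    rfl
  rw [e1, e2, ← Finset.sum_sub_distrib]
  have h3 : ∀ r ∈ box d q, ‖(((#{n ∈ s | (fun i => v n i % q) = r} : ℕ) : ℝ) / s.card : ℝ) * G r - ((1 / (q : ℝ) ^ d : ℝ) : ℂ) * G r‖ ≤
      1 / (2 * H + 1) * (1 / (q : ℝ) ^ d) * B := by
    intro r hr
    rw [← sub_mul, norm_mul, ← Complex.ofReal_sub, Complex.norm_real, Real.norm_eq_abs]
    exact mul_le_mul (hw.dist q hq1 hq r hr) (hG1 r) (norm_nonneg _) (by positivity)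
  refine (norm_sum_le _ _).trans ((Finset.sum_le_sum h3).trans (le_of_eq ?_))
  rw [Finset.sum_const, card_box, nsmul_eq_mul]
  push_cast
  field_simp

/-- **Sums of multiplicative functions at the members of a well distributed family**, one length. -/
theorem mt_oneW (d : ℕ) (δ : ℝ) (hδ : 0 < δ) (A : ℕ) : ∃ M : ℕ, ∃ x₀ : ℕ,
    ∀ (S : Finset ℕ) (v : ℕ → Fin d → ℕ) (H x L : ℕ), WellN S v H → x₀ ≤ x → x ^ M ≤ 2 * H + 1 →
    ∀ F : ℕ → (Fin d → ℕ) → ℂ, Fam d L x ((x : ℝ) ^ (δ / 4)) F → ∀ w : ℕ → ℂ, (∀ n, ‖w n‖ ≤ 1) →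
    ∀ Ex ⊆ S, (∀ t ∈ Ex, (x : ℝ) ^ (1 / 2 + δ) < ‖∑ n ∈ nn L x, w n * F n (v t)‖) →
    (Ex.card : ℝ) ≤ (x : ℝ) ^ (-(A : ℝ)) * S.card := by
  classical
  obtain ⟨k, hk⟩ : ∃ k, k = ⌈(2 * δ + A + 1) / δ⌉₊ + 1 := ⟨_, rfl⟩
  have hk1 : 1 ≤ k := by omega
  have hkr : (1 : ℝ) ≤ k := by exact_mod_cast hk1
  have hkA : 2 * δ + A + 1 ≤ k * δ := by
    have h1 : (2 * δ + A + 1) / δ ≤ k := by
      rw [hk]
      push_cast
      have := Nat.le_ceil ((2 * δ + A + 1) / δ)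
      linarith
    rw [div_le_iff₀ hδ] at h1
    linarith
  obtain ⟨C, hC0, hC⟩ := count k hk1 δ hδ
  obtain ⟨x₁, hx₁⟩ := exists_nat_ge (C + 1)
  refine ⟨2 * k, x₁ + 1, fun S v H x L hW hx hxH F hF w hw Ex hEx hExb => ?_⟩
  have hx1 : (1 : ℝ) ≤ x := by exact_mod_cast (by omega : 1 ≤ x)
  have hx0 : (0 : ℝ) < x := by linarith
  obtain ⟨B, hB⟩ : ∃ B : ℝ, B = (x : ℝ) ^ (δ / 4) := ⟨_, rfl⟩
  rw [← hB] at hF
  have hB0 : 0 ≤ B := by rw [hB]; positivity
  have hS0 : (0 : ℝ) < S.card := by exact_mod_cast hW.pos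
  obtain ⟨T, hT⟩ : ∃ T, T = Fintype.piFinset (fun _ : Fin k => nn L x ×ˢ nn L x) := ⟨_, rfl⟩
  have hmem : ∀ g ∈ T, ∀ i, (g i).1 ∈ nn L x ∧ (g i).2 ∈ nn L x := by
    intro g hg i
    rw [hT, Fintype.mem_piFinset] at hg
    exact mem_product.1 (hg i)
  have hTT : ∀ g ∈ T, ∀ m, ‖∏ i, TT F w (g i) m‖ ≤ B ^ (2 * k) := by
    intro g hg m
    rw [norm_prod, pow_mul]
    calc ∏ i, ‖TT F w (g i) m‖ ≤ ∏ _i : Fin k, B ^ 2 := prod_le_prod (fun _ _ => norm_nonneg _) fun i _ =>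
          TT_norm w (g i) m hw hB0 (hF.bnd _ (hmem g hg i).1 m) (hF.bnd _ (hmem g hg i).2 m)
      _ = (B ^ 2) ^ k := by rw [prod_const, card_univ, Fintype.card_fin]
  -- one tuple
  have hone : ∀ g ∈ T, ‖∑ t ∈ S, ∏ i, TT F w (g i) (v t)‖ ≤
      S.card * ((if SF (∏ i, (g i).1 * (g i).2) then B ^ (2 * k) else 0) + B ^ (2 * k) / (2 * H + 1)) := by
    intro g hg
    by_cases h : SF (∏ i, (g i).1 * (g i).2)
    · rw [if_pos h]
      refine (norm_sum_le _ _).trans ((sum_le_sum fun t _ => hTT g hg (v t)).trans ?_)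
      rw [sum_const, nsmul_eq_mul]
      apply mul_le_mul_of_nonneg_left _ hS0.le
      have : 0 ≤ B ^ (2 * k) / (2 * (H : ℝ) + 1) := by positivity
      linarith
    · rw [if_neg h, zero_add]
      obtain ⟨Mg, hMg⟩ : ∃ Mg, Mg = ∏ i, (g i).1 * (g i).2 := ⟨_, rfl⟩
      have hMg1 : 1 ≤ Mg := by
        rw [hMg]
        apply Nat.one_le_iff_ne_zero.2
        rw [prod_ne_zero_iff]
        intro i _
        have h2 := mem_nn.1 (hmem g hg i).1
        have h3 := mem_nn.1 (hmem g hg i).2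
        exact Nat.mul_ne_zero (by omega) (by omega)
      have hMgx : Mg ≤ x ^ (2 * k) := by
        rw [hMg]
        calc ∏ i, (g i).1 * (g i).2 ≤ ∏ _i : Fin k, x * x := prod_le_prod' fun i _ =>
              Nat.mul_le_mul (mem_nn.1 (hmem g hg i).1).1.2 (mem_nn.1 (hmem g hg i).2).1.2
          _ = x ^ (2 * k) := by
              rw [prod_const, card_univ, Fintype.card_fin, ← sq, ← pow_mul]
      have hper : PerC Mg (fun m => ∏ i, TT F w (g i) m) := by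
        refine PerC.prod univ fun i _ => ?_
        have hdM : (g i).1 * (g i).2 ∣ Mg := by
          rw [hMg]
          exact dvd_prod_of_mem (fun i => (g i).1 * (g i).2) (mem_univ i)
        exact TT_per w (g i) Mg ((hF.per _ (hmem g hg i).1).of_dvd ((dvd_mul_right _ _).trans hdM))
          ((hF.per _ (hmem g hg i).2).of_dvd ((dvd_mul_left _ _).trans hdM))
      have hz : ∑ n ∈ box d Mg, ∏ i, TT F w (g i) n = 0 := by
        have h1 := term_zero w hF (Mg * x.factorial) (Nat.mul_pos hMg1 (Nat.factorial_pos x))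
          (fun n hn => (Nat.dvd_factorial (mem_nn.1 hn).1.1 (mem_nn.1 hn).1.2).trans (dvd_mul_left _ _)) k g (hmem g hg) h
        rw [box_mul Mg x.factorial hMg1 (Nat.factorial_pos x) _ hper] at h1
        rcases mul_eq_zero.1 h1 with h2 | h2
        · exfalso
          have h3 : ((x.factorial : ℕ) : ℂ) ≠ 0 := by exact_mod_cast (Nat.factorial_pos x).ne'
          exact (pow_ne_zero d h3) h2
        · exact h2
      have h1 := avg_nearC hW Mg hMg1 (hMgx.trans hxH) (fun m => ∏ i, TT F w (g i) m) hper (B ^ (2 * k)) (by positivity) (hTT g hg)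
      rw [hz, mul_zero, sub_zero, norm_div, Complex.norm_natCast, div_le_iff₀ hS0] at h1
      linarith
  -- the moment
  have hsum : ∑ t ∈ S, ‖∑ n ∈ nn L x, w n * F n (v t)‖ ^ (2 * k) ≤ S.card * (B ^ (2 * k) * (C * (x : ℝ) ^ ((k : ℝ) + δ) + 1)) := by
    have h1 : ((∑ t ∈ S, ‖∑ n ∈ nn L x, w n * F n (v t)‖ ^ (2 * k) : ℝ) : ℂ) = ∑ g ∈ T, ∑ t ∈ S, ∏ i, TT F w (g i) (v t) := by
      rw [Complex.ofReal_sum, sum_congr rfl (fun t _ => pow_expand w (nn L x) k (v t)), sum_comm, hT]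
    have h2 : ‖∑ g ∈ T, ∑ t ∈ S, ∏ i, TT F w (g i) (v t)‖ ≤
        ∑ g ∈ T, (S.card : ℝ) * ((if SF (∏ i, (g i).1 * (g i).2) then B ^ (2 * k) else 0) + B ^ (2 * k) / (2 * H + 1)) :=
      (norm_sum_le _ _).trans (sum_le_sum hone)
    rw [← h1, Complex.norm_real, Real.norm_eq_abs] at h2
    refine (le_abs_self _).trans (h2.trans ?_)
    rw [← mul_sum]
    apply mul_le_mul_of_nonneg_left _ hS0.le
    rw [sum_add_distrib, ← sum_filter, sum_const, sum_const, nsmul_eq_mul, nsmul_eq_mul]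
    have h3 : ((T.filter (fun g => SF (∏ i, (g i).1 * (g i).2))).card : ℝ) ≤ C * (x : ℝ) ^ ((k : ℝ) + δ) := by
      refine le_trans ?_ (hC x (by omega))
      have : T.filter (fun g => SF (∏ i, (g i).1 * (g i).2)) ⊆
          (Fintype.piFinset (fun _ : Fin k => Icc 1 x ×ˢ Icc 1 x)).filter (fun g => SF (∏ i, (g i).1 * (g i).2)) := by
        intro g hg
        rw [mem_filter] at hg ⊢
        refine ⟨?_, hg.2⟩
        rw [Fintype.mem_piFinset]
        intro i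
        have := hmem g hg.1 i
        rw [mem_nn, mem_nn] at this
        rw [mem_product, mem_Icc, mem_Icc]
        exact ⟨this.1.1, this.2.1⟩
      exact_mod_cast card_le_card this
    have h4 : (T.card : ℝ) ≤ 2 * H + 1 := by
      have h5 : T.card ≤ 2 * H + 1 := by
        refine le_trans ?_ hxH
        rw [hT, Fintype.card_piFinset, prod_const, card_univ, Fintype.card_fin, card_product, pow_mul, ← sq]
        apply Nat.pow_le_pow_left
        apply Nat.pow_le_pow_left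
        unfold nn
        refine (card_filter_le _ _).trans ?_
        rw [Nat.card_Icc, Nat.add_sub_cancel]
      exact_mod_cast h5
    have h6 : 0 ≤ B ^ (2 * k) := by positivity
    have h7 : (T.card : ℝ) * (B ^ (2 * k) / (2 * H + 1)) ≤ B ^ (2 * k) := by
      rw [← mul_div_assoc, div_le_iff₀ (by positivity), mul_comm]
      exact mul_le_mul_of_nonneg_left h4 h6
    have h8 := mul_le_mul_of_nonneg_right h3 h6
    linarith
  have h3 : (Ex.card : ℝ) * ((x : ℝ) ^ (1 / 2 + δ)) ^ (2 * k) ≤ ∑ t ∈ S, ‖∑ n ∈ nn L x, w n * F n (v t)‖ ^ (2 * k) := by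
    calc (Ex.card : ℝ) * ((x : ℝ) ^ (1 / 2 + δ)) ^ (2 * k) = ∑ _t ∈ Ex, ((x : ℝ) ^ (1 / 2 + δ)) ^ (2 * k) := by rw [sum_const, nsmul_eq_mul]
      _ ≤ ∑ t ∈ Ex, ‖∑ n ∈ nn L x, w n * F n (v t)‖ ^ (2 * k) :=
          sum_le_sum fun t ht => pow_le_pow_left₀ (by positivity) (hExb t ht).le _
      _ ≤ _ := sum_le_sum_of_subset_of_nonneg hEx fun t _ _ => by positivity
  have h5 : B ^ (2 * k) * (C * (x : ℝ) ^ ((k : ℝ) + δ) + 1) ≤ (x : ℝ) ^ (-(A : ℝ)) * ((x : ℝ) ^ (1 / 2 + δ)) ^ (2 * k) := by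
    have e1 : C + 1 ≤ (x : ℝ) ^ (1 : ℝ) := by
      rw [Real.rpow_one]
      refine hx₁.trans ?_
      exact_mod_cast (by omega : x₁ ≤ x)
    have e2 : (1 : ℝ) ≤ (x : ℝ) ^ ((k : ℝ) + δ) := Real.one_le_rpow hx1 (by positivity)
    have e3 : C * (x : ℝ) ^ ((k : ℝ) + δ) + 1 ≤ (C + 1) * (x : ℝ) ^ ((k : ℝ) + δ) := by nlinarith
    calc B ^ (2 * k) * (C * (x : ℝ) ^ ((k : ℝ) + δ) + 1) ≤ B ^ (2 * k) * ((x : ℝ) ^ (1 : ℝ) * (x : ℝ) ^ ((k : ℝ) + δ)) := by
          apply mul_le_mul_of_nonneg_left _ (by positivity)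
          exact e3.trans (mul_le_mul_of_nonneg_right e1 (by positivity))
      _ = (x : ℝ) ^ (1 + ((k : ℝ) + δ) + δ / 4 * (2 * k : ℕ)) := by
          rw [hB, ← Real.rpow_natCast ((x : ℝ) ^ (δ / 4)), ← Real.rpow_mul hx0.le, ← Real.rpow_add hx0, ← Real.rpow_add hx0]
          congr 1
          ring
      _ ≤ (x : ℝ) ^ (-(A : ℝ) + (1 / 2 + δ) * (2 * k : ℕ)) := by
          apply Real.rpow_le_rpow_of_exponent_le hx1
          push_cast
          have : 0 < (k : ℝ) * δ := by positivity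
          nlinarith
      _ = (x : ℝ) ^ (-(A : ℝ)) * ((x : ℝ) ^ (1 / 2 + δ)) ^ (2 * k) := by
          rw [← Real.rpow_natCast ((x : ℝ) ^ (1 / 2 + δ)), ← Real.rpow_mul hx0.le, Real.rpow_add hx0]
  have h6 : (Ex.card : ℝ) * ((x : ℝ) ^ (1 / 2 + δ)) ^ (2 * k) ≤ ((x : ℝ) ^ (-(A : ℝ)) * S.card) * ((x : ℝ) ^ (1 / 2 + δ)) ^ (2 * k) := by
    refine (h3.trans hsum).trans ?_
    calc (S.card : ℝ) * (B ^ (2 * k) * (C * (x : ℝ) ^ ((k : ℝ) + δ) + 1)) ≤
          S.card * ((x : ℝ) ^ (-(A : ℝ)) * ((x : ℝ) ^ (1 / 2 + δ)) ^ (2 * k)) := mul_le_mul_of_nonneg_left h5 hS0.le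
      _ = _ := by ring
  exact le_of_mul_le_mul_right h6 (by positivity)

end Pool.Agent.N647.TS
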