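import Pool.Agent.N647.TS.Law
import Pool.Agent.Y57.FD.Tup0

/-!
# Weighted sums over tuples of consecutive primes of products of bounded local functions, for the members of a well distributed
family of integer vectors

The analogues of `Pool.Agent.Y57.FD.tuples` and `Pool.Agent.Y57.FD.tuples0`.
-/

set_option autoImplicit false

namespace Pool.Agent.N647.TS

open Finset Filter
open Pool.Agent.TH894.NE (mean box Per mean_prod mean_mono mean_const mean_mul card_box mean_abs_le)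
open Pool.Agent.TH894.NF (pr pr_prime pr_inj qk qk_pos pr_le_qk qk_cop)
open Pool.Agent.Y57.FD (per_prod mean_tuple le_pr sum_inv)

open Classical in
theorem tuplesW (d s : ℕ) (hs : 1 ≤ s) (δ : ℝ) (hδ : 0 < δ) (A A₂ : ℕ) : ∃ M : ℕ, ∃ y₀ : ℕ,
    ∀ (S : Finset ℕ) (v : ℕ → Fin d → ℕ) (H y : ℕ), WellN S v H → y₀ ≤ y →
    ∀ (κ : Type) (Λ : ℕ → Finset κ), (∀ n, 2 ≤ n → (Λ n).card ≤ n ^ A₂) →
    ∀ w : κ → ℕ → ℝ, (∀ n, ∀ l ∈ Λ n, ∀ k, |w l k| ≤ 1) →
    ∀ G : κ → Fin s → ℕ → (Fin d → ℕ) → ℝ, (∀ l i p, p.Prime → ∀ m, G l i p m = G l i p (fun j => m j % p)) →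
    (∀ l i p m, |G l i p m| ≤ 1) →
    ∀ E : (Fin d → ℕ) → Prop,
    (∀ m : Fin d → ℕ, (∀ n : ℕ, 2 ≤ n → y ≤ n → n ^ M ≤ 2 * H + 1 → ∀ l ∈ Λ n,
      |∑ k ∈ range n, w l k * ∏ i : Fin s, G l i (pr (k + i)) m -
        ∑ k ∈ range n, w l k * ∏ i : Fin s, mean d (pr (k + i)) (G l i (pr (k + i)))| ≤
        Real.sqrt (max 1 (∑ k ∈ range n, w l k ^ 2)) * (n : ℝ) ^ δ) → E m) →
    ((S.filter fun t => ¬ E (v t)).card : ℝ) ≤ 1 / (y : ℝ) ^ A * S.card := by
  have hsr : (1 : ℝ) ≤ s := by exact_mod_cast hs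
  obtain ⟨M, x₀, h⟩ := lawW d (δ / (6 * s)) A (A₂ + 3) (by positivity)
  have hev : ∀ᶠ n : ℕ in atTop, (s : ℝ) ≤ (n : ℝ) ^ (δ / 2) := by
    have h1 : Tendsto (fun x : ℝ => x ^ (δ / 2)) atTop atTop := tendsto_rpow_atTop (by positivity)
    exact (h1.comp tendsto_natCast_atTop_atTop).eventually (eventually_ge_atTop _)
  obtain ⟨n₁, hn₁⟩ := eventually_atTop.1 hev
  refine ⟨3 * s * M, x₀ + n₁ + 16 * s + 16, fun S v H y hw hy κ Λ hΛ w hw1 G hG hG1 E hE => ?_⟩
  have hyr : (1 : ℝ) ≤ y := by exact_mod_cast (by omega : 1 ≤ y)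
  have hy0 : (0 : ℝ) < y := by linarith
  have h1 : 1 / (y : ℝ) ^ A = (y : ℝ) ^ (-(A : ℝ)) := by
    rw [Real.rpow_neg hy0.le, Real.rpow_natCast, one_div]
  rw [h1]
  -- the parameters
  obtain ⟨Θ, hΘ⟩ : ∃ Θ : ℕ → Finset (ℕ × ℕ × κ), Θ = fun x => if x < s + 3 then ∅ else
      (Icc 2 x).biUnion (fun n => (range s).biUnion (fun t => (Λ n).image (fun l => (n, t, l)))) := ⟨_, rfl⟩
  have hmemΘ : ∀ x : ℕ, s + 3 ≤ x → ∀ n t : ℕ, ∀ l : κ, (n, t, l) ∈ Θ x ↔ (2 ≤ n ∧ n ≤ x) ∧ t < s ∧ l ∈ Λ n := by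
    intro x hx n t l
    rw [hΘ]
    show (n, t, l) ∈ (if x < s + 3 then ∅ else _) ↔ _
    rw [if_neg (by omega)]
    simp only [mem_biUnion, mem_image, mem_Icc, mem_range, Prod.mk.injEq]
    constructor
    · rintro ⟨n', hn', t', ht', l', hl', e1, e2, e3⟩
      subst e1; subst e2; subst e3
      exact ⟨hn', ht', hl'⟩
    · rintro ⟨hn', ht', hl'⟩
      exact ⟨n, hn', t, ht', l, hl', rfl, rfl, rfl⟩
  have hΘl : ∀ x : ℕ, ∀ l ∈ Θ x, s + 3 ≤ x := by
    intro x l hl
    by_contra hcon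
    rw [hΘ] at hl
    change l ∈ (if x < s + 3 then (∅ : Finset (ℕ × ℕ × κ)) else _) at hl
    rw [if_pos (by omega)] at hl
    exact absurd hl (notMem_empty _)
  have hprod1 : ∀ (l : κ) (k : ℕ) (m : Fin d → ℕ), |∏ i : Fin s, G l i (pr (k + i)) m| ≤ 1 := by
    intro l k m
    rw [abs_prod]
    exact prod_le_one (fun i _ => abs_nonneg _) (fun i _ => hG1 _ _ _ _)
  refine h S v H y hw (by omega) (ℕ × ℕ × κ) Θ ?_ ℕ
    (fun x l => (range l.1).filter (fun k => k % s = l.2.1 ∧ qk s k ≤ x)) (fun _ k => qk s k) ?_ ?_ ?_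
    (fun l k m => w l.2.2 k * ∏ i : Fin s, G l.2.2 i (pr (k + i)) m) ?_ ?_ _ (filter_subset _ _) ?_
  · intro x _
    by_cases hx : x < s + 3
    · have : Θ x = ∅ := by
        rw [hΘ]
        show (if x < s + 3 then (∅ : Finset (ℕ × ℕ × κ)) else _) = ∅
        rw [if_pos hx]
      rw [this, card_empty, Nat.cast_zero]
      positivity
    · push Not at hx
      have hxr : (3 : ℝ) ≤ x := by exact_mod_cast (by omega : 3 ≤ x)
      have hsx : (s : ℝ) ≤ x := by exact_mod_cast (by omega : s ≤ x)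
      have hΘx : Θ x = (Icc 2 x).biUnion (fun n => (range s).biUnion (fun t => (Λ n).image (fun l => (n, t, l)))) := by
        rw [hΘ]
        show (if x < s + 3 then (∅ : Finset (ℕ × ℕ × κ)) else _) = _
        rw [if_neg (by omega)]
      have hc1 : (Θ x).card ≤ x * (s * x ^ A₂) := by
        rw [hΘx]
        refine card_biUnion_le.trans ?_
        have h2 : ∀ n ∈ Icc 2 x, ((range s).biUnion (fun t => (Λ n).image (fun l => (n, t, l)))).card ≤ s * x ^ A₂ := by
          intro n hn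
          rw [mem_Icc] at hn
          refine card_biUnion_le.trans ?_
          have h3 : ∀ t ∈ range s, ((Λ n).image (fun l => (n, t, l))).card ≤ x ^ A₂ := by
            intro t _
            exact card_image_le.trans ((hΛ n hn.1).trans (Nat.pow_le_pow_left hn.2 _))
          refine (sum_le_sum h3).trans ?_
          rw [sum_const, card_range, smul_eq_mul]
        refine (sum_le_sum h2).trans ?_
        rw [sum_const, smul_eq_mul, Nat.card_Icc]
        exact Nat.mul_le_mul_right _ (by omega)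
      have hc2 : ((Θ x).card : ℝ) ≤ (x : ℝ) * (s * (x : ℝ) ^ A₂) := by exact_mod_cast hc1
      refine hc2.trans ?_
      have e2 : (x : ℝ) ^ ((A₂ : ℝ) + 3) = (x : ℝ) * ((x * x) * (x : ℝ) ^ A₂) := by
        have : ((A₂ : ℝ) + 3) = ((A₂ + 3 : ℕ) : ℝ) := by push_cast; ring
        rw [this, Real.rpow_natCast]
        ring
      rw [e2]
      gcongr
      nlinarith
  · intro x l hl
    obtain ⟨n, t, l'⟩ := l
    have h2 := (hmemΘ x (hΘl x _ hl) n t l').1 hl
    refine (card_filter_le _ _).trans ?_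
    rw [card_range]
    exact h2.1.2
  · intro x l _ k hk
    rw [mem_filter] at hk
    exact ⟨qk_pos s k, hk.2.2⟩
  · intro x l _ k hk k' hk' hne
    rw [mem_filter] at hk hk'
    exact qk_cop s k k' (hk.2.1.trans hk'.2.1.symm) hne
  · intro x l _ k _ m
    show w l.2.2 k * ∏ i : Fin s, G l.2.2 i (pr (k + i)) m = w l.2.2 k * _
    exact congrArg (fun z => w l.2.2 k * z) (per_prod (G l.2.2) (hG l.2.2) k m)
  · intro x l hl k _ m
    obtain ⟨n, t, l'⟩ := l
    have h2 := (hmemΘ x (hΘl x _ hl) n t l').1 hl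
    rw [abs_mul]
    exact mul_le_one₀ (hw1 n l' h2.2.2 k) (abs_nonneg _) (hprod1 l' k m)
  · intro t₀ hS
    rw [mem_filter] at hS
    obtain ⟨_, hS2⟩ := hS
    obtain ⟨m, hm⟩ : ∃ m : Fin d → ℕ, m = v t₀ := ⟨_, rfl⟩
    by_contra hcon
    push Not at hcon
    refine hS2 (hE _ fun n hn2 hyn hnr l hl => ?_)
    rw [← hm]
    have hn16 : 16 * s + 16 ≤ n := by omega
    have hnr16 : (16 : ℝ) * s + 16 ≤ n := by exact_mod_cast hn16
    have hn0 : (0 : ℝ) < n := by linarith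
    have hn1 : (1 : ℝ) ≤ n := by linarith
    obtain ⟨x, hx⟩ : ∃ x, x = n ^ (3 * s) := ⟨_, rfl⟩
    have hxr : (x : ℝ) = (n : ℝ) ^ (3 * s) := by rw [hx]; push_cast; ring
    have hnx : n ≤ x := by
      rw [hx]
      exact Nat.le_self_pow (by omega) n
    have hq : ∀ k ∈ range n, qk s k ≤ x := by
      intro k hk
      rw [mem_range] at hk
      unfold qk
      calc ∏ i : Fin s, pr (k + i) ≤ ∏ _i : Fin s, n ^ 3 := by
            apply prod_le_prod'
            intro i _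
            refine (Pool.Agent.TH862.EA.nth_prime_le (k + i)).trans ?_
            have h1 : k + i + 1 ≤ n + s := by have := i.isLt; omega
            have h2 : n + s ≤ 2 * n := by omega
            calc 4 * (k + i + 1) ^ 2 ≤ 4 * (2 * n) ^ 2 := Nat.mul_le_mul_left 4 (Nat.pow_le_pow_left (h1.trans h2) 2)
              _ = 16 * n ^ 2 := by ring
              _ ≤ n * n ^ 2 := Nat.mul_le_mul_right _ (by omega)
              _ = n ^ 3 := by ring
        _ = x := by rw [prod_const, card_univ, Fintype.card_fin, hx, ← pow_mul]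
    have hclass : ∀ t ∈ range s, ((range n).filter (fun k => k % s = t ∧ qk s k ≤ x)) = (range n).filter (fun k => k % s = t) := by
      intro t _
      apply filter_congr
      intro k hk
      exact ⟨fun h => h.1, fun h => ⟨h, hq k hk⟩⟩
    have hmem : ∀ t ∈ range s, (n, t, l) ∈ Θ x := by
      intro t ht
      rw [hmemΘ x (by omega)]
      exact ⟨⟨hn2, hnx⟩, mem_range.1 ht, hl⟩
    have hxM : x ^ M ≤ 2 * H + 1 := by
      rw [hx, ← pow_mul]
      exact hnr
    obtain ⟨V, hV⟩ : ∃ V : ℝ, V = ∑ k ∈ range n, w l k ^ 2 := ⟨_, rfl⟩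
    obtain ⟨T, hT⟩ : ∃ T : ℕ → ℝ, T = fun k => w l k * ∏ i : Fin s, G l i (pr (k + i)) m -
      w l k * ∏ i : Fin s, mean d (pr (k + i)) (G l i (pr (k + i))) := ⟨_, rfl⟩
    have hmeank : ∀ k, mean d (qk s k) (fun m => w l k * ∏ i : Fin s, G l i (pr (k + i)) m) =
        w l k * ∏ i : Fin s, mean d (pr (k + i)) (G l i (pr (k + i))) := by
      intro k
      rw [Pool.Agent.TH894.NE.mean_mul, mean_tuple (G l) (hG l) k]
    have hpart : ∀ t ∈ range s, |∑ k ∈ (range n).filter (fun k => k % s = t), T k| ≤ Real.sqrt (max 1 V) * (n : ℝ) ^ (δ / 2) := by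
      intro t ht
      have h1 := hcon x (by omega) hxM (n, t, l) (hmem t ht)
      simp only at h1
      rw [hclass t ht, ← hm, sum_congr rfl fun k _ => hmeank k, ← sum_sub_distrib] at h1
      rw [hT]
      refine h1.trans ?_
      apply mul_le_mul _ _ (by positivity) (Real.sqrt_nonneg _)
      · apply Real.sqrt_le_sqrt
        apply max_le_max le_rfl
        rw [hV]
        calc ∑ k ∈ (range n).filter (fun k => k % s = t), mean d (qk s k) (fun m => (w l k * ∏ i : Fin s, G l i (pr (k + i)) m) ^ 2) ≤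
            ∑ k ∈ (range n).filter (fun k => k % s = t), w l k ^ 2 := by
              refine sum_le_sum fun k _ => ?_
              have h2 : mean d (qk s k) (fun m => (w l k * ∏ i : Fin s, G l i (pr (k + i)) m) ^ 2) ≤
                  mean d (qk s k) (fun _ => w l k ^ 2) := by
                apply Pool.Agent.TH894.NE.mean_mono
                intro m
                rw [mul_pow]
                have h3 : (∏ i : Fin s, G l i (pr (k + i)) m) ^ 2 ≤ 1 := by
                  rw [sq_le_one_iff_abs_le_one]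
                  exact hprod1 l k m
                nlinarith [sq_nonneg (w l k)]
              rwa [Pool.Agent.TH894.NE.mean_const d (qk s k) (qk_pos s k)] at h2
          _ ≤ ∑ k ∈ range n, w l k ^ 2 := sum_le_sum_of_subset_of_nonneg (filter_subset _ _) fun k _ _ => sq_nonneg _
      · rw [hxr, ← Real.rpow_natCast, ← Real.rpow_mul hn0.le]
        apply Real.rpow_le_rpow_of_exponent_le hn1
        push_cast
        have : 3 * (s : ℝ) * (δ / (6 * s)) = δ / 2 := by field_simp; ring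
        rw [this]
    have hsplit : ∑ k ∈ range n, w l k * ∏ i : Fin s, G l i (pr (k + i)) m -
        ∑ k ∈ range n, w l k * ∏ i : Fin s, mean d (pr (k + i)) (G l i (pr (k + i))) =
        ∑ t ∈ range s, ∑ k ∈ (range n).filter (fun k => k % s = t), T k := by
      rw [sum_fiberwise_of_maps_to (s := range n) (t := range s) (g := fun k => k % s) (fun k _ => mem_range.2 (Nat.mod_lt _ (by omega))),
        hT, ← sum_sub_distrib]
    rw [hsplit, ← hV]
    refine (abs_sum_le_sum_abs _ _).trans ((sum_le_sum hpart).trans ?_)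
    rw [sum_const, card_range, nsmul_eq_mul]
    have e1 : (n : ℝ) ^ δ = (n : ℝ) ^ (δ / 2) * (n : ℝ) ^ (δ / 2) := by
      rw [← Real.rpow_add hn0]
      congr 1
      ring
    rw [e1]
    have h9 := hn₁ n (by omega)
    have h10 : 0 ≤ Real.sqrt (max 1 V) * (n : ℝ) ^ (δ / 2) := by positivity
    nlinarith

open Classical in
theorem tuplesW0 (d s : ℕ) (hs : 1 ≤ s) (δ : ℝ) (hδ : 0 < δ) (A A₂ : ℕ) (B C₀ : ℝ)
    (hB : 1 ≤ B) (hC₀ : 0 ≤ C₀) : ∃ M : ℕ, ∃ y₀ : ℕ,
    ∀ (S : Finset ℕ) (v : ℕ → Fin d → ℕ) (J y : ℕ), WellN S v J → y₀ ≤ y →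
    ∀ (κ : Type) (Λ : ℕ → Finset κ), (∀ n, 2 ≤ n → (Λ n).card ≤ n ^ A₂) →
    ∀ w : κ → ℕ → ℝ, (∀ n, ∀ l ∈ Λ n, ∀ k, |w l k| ≤ 1) →
    ∀ H : κ → Fin s → ℕ → (Fin d → ℕ) → ℝ, (∀ l i p, p.Prime → ∀ m, H l i p m = H l i p (fun j => m j % p)) →
    (∀ l i p, p.Prime → ∀ m, |H l i p m| ≤ B) →
    (∀ n, ∀ l ∈ Λ n, ∃ i : Fin s, ∀ p, p.Prime → |mean d p (H l i p)| ≤ C₀ / Real.sqrt p) →
    ∀ E : (Fin d → ℕ) → Prop,
    (∀ m : Fin d → ℕ, (∀ n : ℕ, 2 ≤ n → y ≤ n → n ^ M ≤ 2 * J + 1 → ∀ l ∈ Λ n,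
      |∑ k ∈ range n, w l k * ∏ i : Fin s, H l i (pr (k + i)) m| ≤
        Real.sqrt (max 1 (∑ k ∈ range n, w l k ^ 2)) * (n : ℝ) ^ δ) → E m) →
    ((S.filter fun t => ¬ E (v t)).card : ℝ) ≤ 1 / (y : ℝ) ^ A * S.card := by
  have hB0 : 0 < B := by linarith
  obtain ⟨M, y₁, h⟩ := tuplesW d s hs (δ / 2) (by positivity) A A₂
  have hev : ∀ᶠ n : ℕ in atTop, B ^ s * (1 + C₀ * Real.sqrt (1 + Real.log n)) ≤ (n : ℝ) ^ (δ / 2) := by
    have h1 : Tendsto (fun x : ℝ => x ^ (δ / 4)) atTop atTop := tendsto_rpow_atTop (by positivity)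
    have h2 : ∀ᶠ x : ℝ in atTop, B ^ s * (1 + C₀) ≤ x ^ (δ / 4) := h1.eventually (eventually_ge_atTop _)
    have h3 : ∀ᶠ x : ℝ in atTop, Real.log x ≤ x ^ (δ / 4) := by
      have h4 := (isLittleO_log_rpow_atTop (show (0 : ℝ) < δ / 4 by positivity)).bound (show (0 : ℝ) < 1 by norm_num)
      filter_upwards [h4, eventually_ge_atTop 1] with x hx hx1
      rw [Real.norm_of_nonneg (Real.log_nonneg hx1), Real.norm_of_nonneg (by positivity), one_mul] at hx
      exact hx
    have h5 : ∀ᶠ x : ℝ in atTop, (3 : ℝ) ≤ x ^ (δ / 4) := h1.eventually (eventually_ge_atTop _)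
    have h6 : ∀ᶠ x : ℝ in atTop, B ^ s * (1 + C₀ * Real.sqrt (1 + Real.log x)) ≤ x ^ (δ / 2) := by
      filter_upwards [h2, h3, h5, eventually_ge_atTop 1] with x hx1 hx2 hx3 hx4
      have hl : 0 ≤ Real.log x := Real.log_nonneg hx4
      have h7 : Real.sqrt (1 + Real.log x) ≤ x ^ (δ / 4) := by
        apply Real.sqrt_le_iff.2
        constructor
        · linarith
        · nlinarith
      have h8 : (1 : ℝ) ≤ x ^ (δ / 4) := by linarith
      have h9 : x ^ (δ / 2) = x ^ (δ / 4) * x ^ (δ / 4) := by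
        rw [← Real.rpow_add (by linarith)]
        congr 1
        ring
      rw [h9]
      calc B ^ s * (1 + C₀ * Real.sqrt (1 + Real.log x)) ≤ B ^ s * (x ^ (δ / 4) + C₀ * x ^ (δ / 4)) := by
            gcongr
        _ = (B ^ s * (1 + C₀)) * x ^ (δ / 4) := by ring
        _ ≤ _ := mul_le_mul_of_nonneg_right hx1 (by linarith)
    exact tendsto_natCast_atTop_atTop.eventually h6
  obtain ⟨n₁, hn₁⟩ := eventually_atTop.1 hev
  refine ⟨M, y₁ + n₁ + 2, fun S v J y hw hy κ Λ hΛ w hw1 H hper hHB hmean E hE => ?_⟩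
  obtain ⟨G, hG⟩ : ∃ G : κ → Fin s → ℕ → (Fin d → ℕ) → ℝ, G = fun l i p m => if p.Prime then H l i p m / B else 0 := ⟨_, rfl⟩
  have hGp : ∀ l i p, p.Prime → ∀ m, G l i p m = H l i p m / B := by
    intro l i p hp m
    rw [hG]
    show (if p.Prime then H l i p m / B else 0) = _
    rw [if_pos hp]
  refine h S v J y hw (by omega) κ Λ hΛ w hw1 G ?_ ?_ E ?_
  · intro l i p hp m
    rw [hGp l i p hp, hGp l i p hp, ← hper l i p hp m]
  · intro l i p m
    by_cases hp : p.Prime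
    · rw [hGp l i p hp, abs_div, abs_of_pos hB0, div_le_one hB0]
      exact hHB l i p hp m
    · rw [hG]
      show |(if p.Prime then H l i p m / B else 0)| ≤ 1
      rw [if_neg hp, abs_zero]
      exact zero_le_one
  · intro m hm
    refine hE m fun n hn2 hyn hnr l hl => ?_
    have h1 := hm n hn2 hyn hnr l hl
    obtain ⟨i₀, hi₀⟩ := hmean n l hl
    have hn0 : (0 : ℝ) < n := by exact_mod_cast (by omega : 0 < n)
    have hn1 : (1 : ℝ) ≤ n := by exact_mod_cast (by omega : 1 ≤ n)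
    have hl0 : 0 ≤ Real.log n := Real.log_nonneg hn1
    obtain ⟨V, hV⟩ : ∃ V : ℝ, V = ∑ k ∈ range n, w l k ^ 2 := ⟨_, rfl⟩
    have hfun : ∀ k, G l i₀ (pr k) = fun m => (1 / B) * H l i₀ (pr k) m := by
      intro k
      funext m
      rw [hGp l i₀ _ (pr_prime _)]
      ring
    have hG1 : ∀ i k, |mean d (pr k) (G l i (pr k))| ≤ 1 := by
      intro i k
      apply mean_abs_le (pr_prime _).one_lt.le
      intro m
      rw [hGp l i _ (pr_prime _), abs_div, abs_of_pos hB0, div_le_one hB0]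
      exact hHB l i _ (pr_prime _) m
    have h2 : |∑ k ∈ range n, w l k * ∏ i : Fin s, mean d (pr (k + i)) (G l i (pr (k + i)))| ≤
        C₀ * (Real.sqrt V * Real.sqrt (1 + Real.log n)) := by
      rw [hV]
      apply sum_inv n i₀ (w l) _ C₀ hC₀
      intro k
      rw [abs_prod, ← mul_prod_erase univ _ (mem_univ i₀)]
      have h3 : |mean d (pr (k + i₀)) (G l i₀ (pr (k + i₀)))| ≤ C₀ / Real.sqrt (pr (k + i₀)) := by
        rw [hfun, Pool.Agent.TH894.NE.mean_mul, abs_mul, abs_of_pos (by positivity : 0 < 1 / B)]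
        have h4 := hi₀ (pr (k + i₀)) (pr_prime _)
        have h5 : 1 / B ≤ 1 := by
          rw [div_le_one hB0]
          exact hB
        calc 1 / B * |mean d (pr (k + i₀)) (H l i₀ (pr (k + i₀)))| ≤ 1 * (C₀ / Real.sqrt (pr (k + i₀))) := by
              apply mul_le_mul h5 h4 (abs_nonneg _) zero_le_one
          _ = _ := one_mul _
      have h6 : ∏ i ∈ univ.erase i₀, |mean d (pr (k + i)) (G l i (pr (k + i)))| ≤ 1 :=
        prod_le_one (fun i _ => abs_nonneg _) (fun i _ => hG1 i _)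
      calc |mean d (pr (k + i₀)) (G l i₀ (pr (k + i₀)))| * ∏ i ∈ univ.erase i₀, |mean d (pr (k + i)) (G l i (pr (k + i)))| ≤
          (C₀ / Real.sqrt (pr (k + i₀))) * 1 := by
            apply mul_le_mul h3 h6 (prod_nonneg fun i _ => abs_nonneg _) (by positivity)
        _ = _ := mul_one _
    have h7 : ∑ k ∈ range n, w l k * ∏ i : Fin s, H l i (pr (k + i)) m =
        B ^ s * ∑ k ∈ range n, w l k * ∏ i : Fin s, G l i (pr (k + i)) m := by
      rw [mul_sum]
      refine sum_congr rfl fun k _ => ?_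
      have h8 : ∏ i : Fin s, H l i (pr (k + i)) m = B ^ s * ∏ i : Fin s, G l i (pr (k + i)) m := by
        have h9 : (B ^ s : ℝ) = ∏ _i : Fin s, B := by rw [prod_const, card_univ, Fintype.card_fin]
        rw [h9, ← prod_mul_distrib]
        refine prod_congr rfl fun i _ => ?_
        rw [hGp l i _ (pr_prime _)]
        field_simp
      rw [h8]
      ring
    rw [h7, abs_mul, abs_of_nonneg (by positivity : 0 ≤ B ^ s), ← hV]
    rw [← hV] at h1
    have hV1 : Real.sqrt V ≤ Real.sqrt (max 1 V) := Real.sqrt_le_sqrt (le_max_right _ _)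
    have h10 : |∑ k ∈ range n, w l k * ∏ i : Fin s, G l i (pr (k + i)) m| ≤
        Real.sqrt (max 1 V) * (n : ℝ) ^ (δ / 2) + C₀ * (Real.sqrt (max 1 V) * Real.sqrt (1 + Real.log n)) := by
      have h11 : |∑ k ∈ range n, w l k * ∏ i : Fin s, G l i (pr (k + i)) m| ≤
          |∑ k ∈ range n, w l k * ∏ i : Fin s, G l i (pr (k + i)) m -
            ∑ k ∈ range n, w l k * ∏ i : Fin s, mean d (pr (k + i)) (G l i (pr (k + i)))| +
          |∑ k ∈ range n, w l k * ∏ i : Fin s, mean d (pr (k + i)) (G l i (pr (k + i)))| := by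
        have := abs_add_le (∑ k ∈ range n, w l k * ∏ i : Fin s, G l i (pr (k + i)) m -
            ∑ k ∈ range n, w l k * ∏ i : Fin s, mean d (pr (k + i)) (G l i (pr (k + i))))
            (∑ k ∈ range n, w l k * ∏ i : Fin s, mean d (pr (k + i)) (G l i (pr (k + i))))
        rwa [sub_add_cancel] at this
      refine h11.trans (add_le_add h1 (h2.trans ?_))
      gcongr
    have h12 : (1 : ℝ) ≤ (n : ℝ) ^ (δ / 2) := Real.one_le_rpow hn1 (by positivity)
    have h13 := hn₁ n (by omega)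
    have e1 : (n : ℝ) ^ δ = (n : ℝ) ^ (δ / 2) * (n : ℝ) ^ (δ / 2) := by
      rw [← Real.rpow_add hn0]
      congr 1
      ring
    rw [e1]
    obtain ⟨R, hR⟩ : ∃ R : ℝ, R = Real.sqrt (max 1 V) := ⟨_, rfl⟩
    obtain ⟨Q, hQ⟩ : ∃ Q : ℝ, Q = (n : ℝ) ^ (δ / 2) := ⟨_, rfl⟩
    obtain ⟨L, hL⟩ : ∃ L : ℝ, L = Real.sqrt (1 + Real.log n) := ⟨_, rfl⟩
    rw [← hR, ← hQ, ← hL] at h10
    rw [← hQ] at h12 h13
    rw [← hL] at h13
    rw [← hR, ← hQ]
    have hR0 : 0 ≤ R := by rw [hR]; exact Real.sqrt_nonneg _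
    have hL0 : 0 ≤ L := by rw [hL]; exact Real.sqrt_nonneg _
    have hBs : 0 ≤ B ^ s := by positivity
    calc B ^ s * |∑ k ∈ range n, w l k * ∏ i : Fin s, G l i (pr (k + i)) m| ≤ B ^ s * (R * Q + C₀ * (R * L)) :=
          mul_le_mul_of_nonneg_left h10 hBs
      _ ≤ B ^ s * (R * Q + C₀ * (R * L) * Q) := by
          apply mul_le_mul_of_nonneg_left _ hBs
          have : 0 ≤ C₀ * (R * L) := by positivity
          nlinarith
      _ = R * ((B ^ s * (1 + C₀ * L)) * Q) := by ring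
      _ ≤ R * (Q * Q) := by
          apply mul_le_mul_of_nonneg_left _ hR0
          exact mul_le_mul_of_nonneg_right h13 (by linarith)

end Pool.Agent.N647.TS
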